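import Pool.Agent.U104.KAb.Count

set_option autoImplicit false
set_option linter.unusedSectionVars false

namespace Pool.Agent.U104.KAb

open List Classical

section general

theorem card_image_le_changes {β : Type*} [DecidableEq β] (f : ℕ → β) (N : ℕ) :
    ((Finset.range (N + 1)).image f).card ≤
      1 + ((Finset.range N).filter (fun i => f i ≠ f (i + 1))).card := by
  induction N with
  | zero => simp
  | succ N ih =>
    rw [Finset.range_add_one, Finset.image_insert]
    rw [Finset.range_add_one (n := N), Finset.filter_insert]
    by_cases h : f N = f (N + 1)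
    · have hm : f (N + 1) ∈ Finset.image f (insert N (Finset.range N)) := by
        rw [← h]; exact Finset.mem_image_of_mem _ (Finset.mem_insert_self _ _)
      rw [Finset.insert_eq_of_mem hm, if_neg (by simpa using h), ← Finset.range_add_one]
      exact ih
    · have e2 : (insert N ((Finset.range N).filter (fun i => f i ≠ f (i + 1)))).card =
          ((Finset.range N).filter (fun i => f i ≠ f (i + 1))).card + 1 :=
        Finset.card_insert_of_notMem (by simp)
      rw [if_pos h, e2, ← Finset.range_add_one]
      have := Finset.card_insert_le (f (N + 1)) (Finset.image f (Finset.range (N + 1)))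
      omega

theorem card_image_mono (f : ℕ → ℕ) (N : ℕ) (hf : ∀ i, i < N → f i ≤ f (i + 1)) :
    ((Finset.range (N + 1)).image f).card =
      1 + ((Finset.range N).filter (fun i => f i ≠ f (i + 1))).card := by
  have hmax : ∀ j, j ≤ N → ∀ i, i ≤ j → f i ≤ f j := by
    intro j
    induction j with
    | zero => intro _ i hi; rw [Nat.le_zero.1 hi]
    | succ j ih =>
      intro hj i hi
      rcases Nat.lt_or_ge i (j + 1) with h | h
      · exact (ih (by omega) i (by omega)).trans (hf j (by omega))
      · rw [show i = j + 1 by omega]
  induction N with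
  | zero => simp
  | succ N ih =>
    have ih' := ih (fun i hi => hf i (by omega)) (fun j hj i hi => hmax j (by omega) i hi)
    rw [Finset.range_add_one, Finset.image_insert]
    rw [Finset.range_add_one (n := N), Finset.filter_insert]
    by_cases h : f N = f (N + 1)
    · have hm : f (N + 1) ∈ Finset.image f (insert N (Finset.range N)) := by
        rw [← h]; exact Finset.mem_image_of_mem _ (Finset.mem_insert_self _ _)
      rw [Finset.insert_eq_of_mem hm, if_neg (by simpa using h), ← Finset.range_add_one]
      exact ih'
    · have e2 : (insert N ((Finset.range N).filter (fun i => f i ≠ f (i + 1)))).card =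
          ((Finset.range N).filter (fun i => f i ≠ f (i + 1))).card + 1 :=
        Finset.card_insert_of_notMem (by simp)
      rw [if_pos h, e2, ← Finset.range_add_one]
      rw [Finset.card_insert_of_notMem, ih']
      · omega
      · intro hm
        rw [Finset.mem_image] at hm
        obtain ⟨i, hi, e⟩ := hm
        rw [Finset.mem_range] at hi
        have h1 := hmax N (by omega) i (by omega)
        have h2 := hf N (by omega)
        omega

end general

section upper
variable {α : Type*} [DecidableEq α]

theorem kpal_one (v : List α) : KPal 1 v := by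
  intro t ht
  rw [occ_reverse]
  rcases t with _ | ⟨a, _ | ⟨b, t⟩⟩
  · rfl
  · rfl
  · simp at ht

theorem ind_single (w : List α) (c : α) (x : ℕ) :
    ind w [c] x = if w[x]? = some c then 1 else 0 := by
  unfold ind
  have : [c] <+: w.drop x ↔ w[x]? = some c := by
    rw [prefix_drop_iff]
    constructor
    · intro h; simpa using h 0 (by simp)
    · intro h a ha
      have : a = 0 := by simpa using ha
      subst this
      simpa using h
  simp only [this]

theorem ind_nil (w : List α) (x : ℕ) : ind w [] x = 1 := by
  unfold ind; simp

theorem cls_step {w : List α} {m i : ℕ} (h : i + (m + 1) ≤ w.length)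
    (he : w[i]? = w[i + m]?) : cls 1 w m i = cls 1 w m (i + 1) := by
  apply cls_eq
  intro t ht
  have hs := occ_step (w := w) (t := t) (i := i) (m := m) h (by omega)
  rcases t with _ | ⟨c, _ | ⟨b, t⟩⟩
  · rw [ind_nil, ind_nil] at hs; omega
  · rw [ind_single, ind_single] at hs
    have e : i + m + 1 - [c].length = i + m := by simp
    rw [e, ← he] at hs
    omega
  · simp at ht

/-- the pairs of positions carrying different letters -/
noncomputable def dpairs (w : List α) : Finset (ℕ × ℕ) :=
  (Finset.range w.length ×ˢ Finset.range w.length).filter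
    (fun p => p.1 < p.2 ∧ w[p.1]? ≠ w[p.2]?)

theorem card_dpairs (w : List α) :
    (dpairs w).card = ∑ y ∈ Finset.range w.length,
      ((Finset.range y).filter (fun i => w[i]? ≠ w[i + (w.length - y)]?)).card := by
  rw [← Finset.card_sigma]
  unfold dpairs
  refine Finset.card_bij' (fun p _ => ⟨w.length - (p.2 - p.1), p.1⟩)
    (fun q _ => (q.2, q.2 + (w.length - q.1))) ?_ ?_ ?_ ?_
  · intro p hp
    rw [Finset.mem_filter, Finset.mem_product, Finset.mem_range, Finset.mem_range] at hp
    obtain ⟨⟨h1, h2⟩, h3, h4⟩ := hp
    rw [Finset.mem_sigma, Finset.mem_filter, Finset.mem_range, Finset.mem_range]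
    refine ⟨by dsimp; omega, by dsimp; omega, ?_⟩
    have e : p.1 + (w.length - (w.length - (p.2 - p.1))) = p.2 := by omega
    dsimp
    rw [e]; exact h4
  · intro q hq
    rw [Finset.mem_sigma, Finset.mem_filter, Finset.mem_range, Finset.mem_range] at hq
    obtain ⟨h1, h2, h3⟩ := hq
    rw [Finset.mem_filter, Finset.mem_product, Finset.mem_range, Finset.mem_range]
    exact ⟨⟨by dsimp; omega, by dsimp; omega⟩, by dsimp; omega, h3⟩
  · intro p hp
    rw [Finset.mem_filter, Finset.mem_product, Finset.mem_range, Finset.mem_range] at hp
    obtain ⟨⟨h1, h2⟩, h3, h4⟩ := hp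
    apply Prod.ext
    · rfl
    · dsimp; omega
  · intro q hq
    rw [Finset.mem_sigma, Finset.mem_filter, Finset.mem_range, Finset.mem_range] at hq
    obtain ⟨h1, h2, h3⟩ := hq
    rcases q with ⟨y, i⟩
    dsimp at h1 h2 ⊢
    have : w.length - (i + (w.length - y) - i) = y := by omega
    rw [this]

theorem pal_one_le (w : List α) : Pal 1 w ≤ w.length + 1 + (dpairs w).card := by
  unfold Pal
  have hsub : ((fun v => Quotient.mk (kSetoid α 1) v) '' {v : List α | v <:+: w ∧ KPal 1 v}) ⊆
      ((insert (Quotient.mk (kSetoid α 1) []) ((Finset.range w.length).biUnion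
        (fun y => (Finset.range (y + 1)).image (cls 1 w (w.length - y)))) :
        Finset (Quotient (kSetoid α 1))) : Set _) := by
    rintro x ⟨v, ⟨hv1, hv2⟩, rfl⟩
    rw [Finset.mem_coe, Finset.mem_insert]
    by_cases hlen : v = []
    · left; rw [hlen]
    · right
      obtain ⟨i, hi, hw⟩ := infix_eq_win hv1
      have hpos : 0 < v.length := length_pos_iff.2 hlen
      rw [Finset.mem_biUnion]
      refine ⟨w.length - v.length, by rw [Finset.mem_range]; omega, ?_⟩
      have e : w.length - (w.length - v.length) = v.length := by omega
      rw [e, Finset.mem_image]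
      refine ⟨i, by rw [Finset.mem_range]; omega, ?_⟩
      unfold cls; rw [hw]
  refine (Set.ncard_le_ncard hsub (Finset.finite_toSet _)).trans ?_
  rw [Set.ncard_coe_finset]
  refine (Finset.card_insert_le _ _).trans ?_
  have h1 : ((Finset.range w.length).biUnion
        (fun y => (Finset.range (y + 1)).image (cls 1 w (w.length - y)))).card ≤
        ∑ y ∈ Finset.range w.length, (1 +
      ((Finset.range y).filter (fun i => w[i]? ≠ w[i + (w.length - y)]?)).card) := by
    refine (Finset.card_biUnion_le).trans (Finset.sum_le_sum fun y hy => ?_)
    rw [Finset.mem_range] at hy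
    refine (card_image_le_changes _ y).trans (Nat.add_le_add_left (Finset.card_le_card ?_) 1)
    intro i hi
    rw [Finset.mem_filter, Finset.mem_range] at hi ⊢
    refine ⟨hi.1, fun he => hi.2 (cls_step (by omega) he)⟩
  rw [Finset.sum_add_distrib, Finset.sum_const, Finset.card_range, ← card_dpairs] at h1
  simp at h1
  omega

end upper

end Pool.Agent.U104.KAb
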