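import Mathlib

/-! # Occurrences of factors, `k`-abelian equivalence, `k`-palindromes -/

set_option autoImplicit false

namespace Pool.Agent.U104.KAb

open List

variable {α : Type*} [DecidableEq α]

/-- `occ u t` is the number of occurrences of the word `t` as a factor of the word `u`: the number
of suffixes of `u` which begin with `t`. -/
def occ (u t : List α) : ℕ := u.tails.countP (fun s => decide (t <+: s))

/-- The words `u` and `v` are `k`-abelian equivalent: every word of length at most `k` occurs
equally often in both. -/
def KEquiv (k : ℕ) (u v : List α) : Prop := ∀ t : List α, t.length ≤ k → occ u t = occ v t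

/-- `v` is a `k`-palindrome: it is `k`-abelian equivalent to its reversal. -/
def KPal (k : ℕ) (v : List α) : Prop := KEquiv k v v.reverse

/-- `k`-abelian equivalence as an equivalence relation on words. -/
def kSetoid (α : Type*) [DecidableEq α] (k : ℕ) : Setoid (List α) where
  r := KEquiv k
  iseqv := ⟨fun _ _ _ => rfl, fun h t ht => (h t ht).symm, fun h h' t ht => (h t ht).trans (h' t ht)⟩

/-- `Pal k w` is the number of classes of `k`-abelian equivalence which contain at least one factor
of `w` which is a `k`-palindrome. -/
noncomputable def Pal (k : ℕ) (w : List α) : ℕ :=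
  Set.ncard ((fun v => Quotient.mk (kSetoid α k) v) '' {v : List α | v <:+: w ∧ KPal k v})

theorem occ_nil (t : List α) : occ [] t = if t = [] then 1 else 0 := by
  unfold occ
  by_cases h : t = []
  · simp [h]
  · simp [h]

theorem occ_cons (a : α) (u t : List α) :
    occ (a :: u) t = occ u t + if t <+: a :: u then 1 else 0 := by
  unfold occ
  rw [tails_cons, countP_cons]
  simp

theorem occ_concat (u : List α) (a : α) (t : List α) :
    occ (u ++ [a]) t = occ u t + if t <:+ u ++ [a] then 1 else 0 := by
  induction u with
  | nil =>
    rw [nil_append, occ_cons]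
    congr 1
    have : t <+: [a] ↔ t <:+ [a] := by
      rcases t with _ | ⟨b, t⟩
      · simp
      · constructor
        · intro h
          have h1 := h.length_le
          have : t = [] := by
            rcases t with _ | ⟨c, t⟩
            · rfl
            · simp at h1
          subst this
          have := h.eq_of_length (by simp)
          rw [this]
        · intro h
          have h1 := h.length_le
          have : t = [] := by
            rcases t with _ | ⟨c, t⟩
            · rfl
            · simp at h1
          subst this
          have := h.eq_of_length (by simp)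
          rw [this]
    simp only [this]
  | cons b u ih =>
    rw [cons_append, occ_cons, ih, occ_cons]
    have h1 : (t <+: b :: (u ++ [a])) ↔ (t = b :: (u ++ [a]) ∨ t <+: b :: u) := by
      rw [← cons_append]; exact prefix_concat_iff
    have h2 : (t <:+ b :: (u ++ [a])) ↔ (t = b :: (u ++ [a]) ∨ t <:+ u ++ [a]) := suffix_cons_iff
    by_cases e : t = b :: (u ++ [a])
    · have n1 : ¬ t <+: b :: u := by
        intro h; have := h.length_le; rw [e] at this; simp at this
      have n2 : ¬ t <:+ u ++ [a] := by
        intro h; have := h.length_le; rw [e] at this; simp at this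
      rw [if_neg n2, if_neg n1, if_pos (h1.2 (Or.inl e)), if_pos (h2.2 (Or.inl e))]
    · have h1' : (t <+: b :: (u ++ [a])) ↔ t <+: b :: u := by rw [h1]; simp [e]
      have h2' : (t <:+ b :: (u ++ [a])) ↔ t <:+ u ++ [a] := by rw [h2]; simp [e]
      simp only [h1', h2']
      omega

theorem occ_reverse (u t : List α) : occ u.reverse t = occ u t.reverse := by
  induction u with
  | nil => simp [occ_nil]
  | cons a u ih =>
    rw [reverse_cons, occ_concat, ih, occ_cons]
    have : (t <:+ u.reverse ++ [a]) ↔ t.reverse <+: a :: u := by
      rw [← reverse_cons, ← reverse_prefix, reverse_reverse]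
    simp only [this]

theorem occ_length_lt {u t : List α} (h : u.length < t.length) : occ u t = 0 := by
  induction u with
  | nil => rw [occ_nil, if_neg]; rintro rfl; simp at h
  | cons a u ih =>
    rw [occ_cons, ih (by simp at h; omega), if_neg]
    intro h'; have := h'.length_le; omega

theorem occ_self_pos (u : List α) : 0 < occ u u := by
  rcases u with _ | ⟨a, u⟩
  · simp [occ_nil]
  · rw [occ_cons]; simp

theorem occ_pos_infix {u t : List α} (h : 0 < occ u t) : t <:+: u := by
  induction u with
  | nil =>
    rw [occ_nil] at h
    by_cases e : t = []
    · rw [e]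
    · simp [e] at h
  | cons a u ih =>
    rw [occ_cons] at h
    by_cases e : t <+: a :: u
    · exact e.isInfix
    · rw [if_neg e] at h
      exact (ih (by simpa using h)).trans (suffix_cons a u).isInfix

theorem occ_empty (u : List α) : occ u [] = u.length + 1 := by
  induction u with
  | nil => simp [occ_nil]
  | cons a u ih => rw [occ_cons, ih]; simp

theorem KEquiv.length_eq {k : ℕ} {u v : List α} (h : KEquiv k u v) : u.length = v.length := by
  have := h [] (by simp)
  rw [occ_empty, occ_empty] at this
  omega

theorem KEquiv.symm {k : ℕ} {u v : List α} (h : KEquiv k u v) : KEquiv k v u :=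
  fun t ht => (h t ht).symm

theorem KEquiv.trans {k : ℕ} {u v w : List α} (h : KEquiv k u v) (h' : KEquiv k v w) :
    KEquiv k u w := fun t ht => (h t ht).trans (h' t ht)

theorem KEquiv.refl (k : ℕ) (u : List α) : KEquiv k u u := fun _ _ => rfl

/-- every occurrence of `t` is at the beginning or preceded by a letter -/
theorem occ_eq_sum [Fintype α] (u t : List α) :
    occ u t = (∑ x : α, occ u (x :: t)) + if t <+: u then 1 else 0 := by
  induction u with
  | nil =>
    rw [occ_nil]
    have : ∀ x : α, occ ([] : List α) (x :: t) = 0 := fun x => by rw [occ_nil]; simp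
    simp [this]
  | cons a u ih =>
    rw [occ_cons, ih]
    have : ∀ x : α, occ (a :: u) (x :: t) = occ u (x :: t) + if (x = a ∧ t <+: u) then 1 else 0 := by
      intro x
      rw [occ_cons]
      simp only [cons_prefix_cons]
    simp only [this, Finset.sum_add_distrib]
    have h2 : (∑ x : α, if (x = a ∧ t <+: u) then 1 else 0) = if t <+: u then 1 else 0 := by
      by_cases h : t <+: u
      · simp [h]
      · simp [h]
    rw [h2]

/-- equivalent words have the same prefix of length `k - 1` -/
theorem KEquiv.prefix_iff [Fintype α] {k : ℕ} {u v : List α} (h : KEquiv k u v) {t : List α}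
    (ht : t.length + 1 ≤ k) : t <+: u ↔ t <+: v := by
  have h1 := occ_eq_sum u t
  have h2 := occ_eq_sum v t
  rw [h t (by omega)] at h1
  have h3 : (∑ x : α, occ u (x :: t)) = ∑ x : α, occ v (x :: t) :=
    Finset.sum_congr rfl fun x _ => h (x :: t) (by simpa using ht)
  rw [h3] at h1
  by_cases a : t <+: u
  · by_cases b : t <+: v
    · simp [a, b]
    · rw [if_pos a] at h1; rw [if_neg b] at h2; omega
  · by_cases b : t <+: v
    · rw [if_neg a] at h1; rw [if_pos b] at h2; omega
    · simp [a, b]

theorem KPal.prefix_iff [Fintype α] {k : ℕ} {u : List α} (h : KPal k u) {t : List α}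
    (ht : t.length + 1 ≤ k) : t <+: u ↔ t.reverse <:+ u := by
  rw [KEquiv.prefix_iff h ht, ← reverse_suffix, reverse_reverse]

/-- a `k`-palindrome of length at most `k` is a palindrome -/
theorem KPal.pal_of_length_le {k : ℕ} {u : List α} (h : KPal k u) (hu : u.length ≤ k) :
    u.reverse = u := by
  have h1 := h u hu
  have h2 : 0 < occ u.reverse u := by rw [← h1]; exact occ_self_pos u
  have := occ_pos_infix h2
  exact (this.eq_of_length (by simp)).symm

end Pool.Agent.U104.KAb
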