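import Pool.Agent.U104.KAb.Periods

set_option autoImplicit false
set_option linter.unusedSectionVars false

namespace Pool.Agent.U104.KAb

open List Classical

variable {α : Type*} [DecidableEq α]

/-- the class of the window of length `m` starting at `i` -/
def cls (k : ℕ) (w : List α) (m i : ℕ) : Quotient (kSetoid α k) :=
  Quotient.mk (kSetoid α k) (win w i m)

theorem cls_eq {k : ℕ} {w : List α} {m i j : ℕ} (h : KEquiv k (win w i m) (win w j m)) :
    cls k w m i = cls k w m j := Quotient.sound h

/-- the factors of `w` which are palindromes -/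
noncomputable def palF (w : List α) : Finset (List α) :=
  w.sublists.toFinset.filter (fun v => v <:+: w ∧ v.reverse = v)

theorem mem_palF {w v : List α} : v ∈ palF w ↔ v <:+: w ∧ v.reverse = v := by
  unfold palF
  rw [Finset.mem_filter, List.mem_toFinset, List.mem_sublists]
  constructor
  · rintro ⟨_, h⟩; exact h
  · rintro h; exact ⟨h.1.sublist, h⟩

theorem palF_aux {a : α} {w p q : List α} (hp : p <+: a :: w) (hq : q <+: a :: w)
    (pp : p.reverse = p) (pq : q.reverse = q) (hn : ¬ p <:+: w) (hl : p.length ≤ q.length) :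
    p = q := by
  have h1 : p <+: q := prefix_of_prefix_length_le hp hq hl
  by_contra hne
  have h2 : p <:+ q := by
    rw [← pp, ← pq, reverse_suffix]; exact h1
  rcases q with _ | ⟨b, q⟩
  · exact hne (by simpa using h1)
  · rw [cons_prefix_cons] at hq
    rcases suffix_cons_iff.1 h2 with e | e
    · exact hne e
    · exact hn (e.isInfix.trans hq.2.isInfix)

/-- a word of length `n` has at most `n + 1` palindromic factors (Droubay, Justin, Pirillo) -/
theorem card_palF (w : List α) : (palF w).card ≤ w.length + 1 := by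
  induction w with
  | nil =>
    have : palF ([] : List α) ⊆ {[]} := by
      intro v hv
      rw [mem_palF] at hv
      simpa using hv.1
    exact (Finset.card_le_card this).trans (by simp)
  | cons a w ih =>
    have h1 : (palF (a :: w) \ palF w).card ≤ 1 := by
      rw [Finset.card_le_one]
      intro p hp q hq
      rw [Finset.mem_sdiff, mem_palF, mem_palF] at hp hq
      obtain ⟨⟨hp1, hp2⟩, hp3⟩ := hp
      obtain ⟨⟨hq1, hq2⟩, hq3⟩ := hq
      have np : ¬ p <:+: w := fun h => hp3 ⟨h, hp2⟩
      have nq : ¬ q <:+: w := fun h => hq3 ⟨h, hq2⟩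
      have pp : p <+: a :: w := (infix_cons_iff.1 hp1).resolve_right np
      have pq : q <+: a :: w := (infix_cons_iff.1 hq1).resolve_right nq
      rcases le_total p.length q.length with hl | hl
      · exact palF_aux pp pq hp2 hq2 np hl
      · exact (palF_aux pq pp hq2 hp2 nq hl).symm
    have h2 := Finset.card_le_card_sdiff_add_card (s := palF (a :: w)) (t := palF w)
    rw [length_cons]
    omega

theorem infix_eq_win {w v : List α} (h : v <:+: w) :
    ∃ i, i + v.length ≤ w.length ∧ win w i v.length = v := by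
  obtain ⟨s, t, rfl⟩ := h
  refine ⟨s.length, by simp, ?_⟩
  unfold win
  rw [append_assoc, drop_left', take_left']
  · rfl
  · rfl

theorem win_infix (w : List α) (i m : ℕ) : win w i m <:+: w := by
  unfold win
  exact (take_prefix _ _).isInfix.trans (drop_suffix _ _).isInfix

variable [Fintype α]

/-- the classes of the `k`-palindromic factors of length `m` -/
noncomputable def T (k : ℕ) (w : List α) (m : ℕ) : Finset (Quotient (kSetoid α k)) :=
  ((Finset.range (w.length - m + 1)).filter (fun i => KPal k (win w i m))).image (cls k w m)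

theorem card_T {K : ℕ} {w : List α} {m : ℕ} (hm : K + 1 ≤ m) (hw : m ≤ w.length) :
    (T (K + 1) w m).card ≤ 2 * ((w.length - m) / (K / 2 + 1) + 1) := by
  set S := (Finset.range (w.length - m + 1)).filter (fun i => KPal (K + 1) (win w i m)) with hS
  have hsub : T (K + 1) w m ⊆ (Finset.range ((w.length - m) / (K / 2 + 1) + 1)).biUnion
      (fun q => (S.filter (fun i => i / (K / 2 + 1) = q)).image (cls (K + 1) w m)) := by
    intro x hx
    unfold T at hx
    rw [Finset.mem_image] at hx
    obtain ⟨i, hi, rfl⟩ := hx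
    rw [Finset.mem_biUnion]
    refine ⟨i / (K / 2 + 1), ?_, ?_⟩
    · rw [Finset.mem_range]
      rw [← hS, Finset.mem_filter, Finset.mem_range] at hi
      have : i / (K / 2 + 1) ≤ (w.length - m) / (K / 2 + 1) := Nat.div_le_div_right (by omega)
      omega
    · exact Finset.mem_image_of_mem _ (Finset.mem_filter.2 ⟨hi, rfl⟩)
  refine (Finset.card_le_card hsub).trans ?_
  refine (Finset.card_biUnion_le_card_mul _ _ 2 ?_).trans (by rw [Finset.card_range]; omega)
  intro q _
  by_contra hcon
  rw [not_le, Finset.two_lt_card] at hcon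
  obtain ⟨x, hx, y, hy, z, hz, hxy, hxz, hyz⟩ := hcon
  rw [Finset.mem_image] at hx hy hz
  obtain ⟨a, ha, rfl⟩ := hx
  obtain ⟨b, hb, rfl⟩ := hy
  obtain ⟨c, hc, rfl⟩ := hz
  have hmem : ∀ i, i ∈ S.filter (fun i => i / (K / 2 + 1) = q) →
      i + m ≤ w.length ∧ KPal (K + 1) (win w i m) ∧ q * (K / 2 + 1) ≤ i ∧
        i < q * (K / 2 + 1) + (K / 2 + 1) := by
    intro i hi
    rw [Finset.mem_filter, hS, Finset.mem_filter, Finset.mem_range] at hi
    obtain ⟨⟨h1, h2⟩, h3⟩ := hi
    refine ⟨by omega, h2, ?_, ?_⟩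
    · rw [← h3]; exact Nat.div_mul_le_self _ _
    · rw [← h3]
      have := Nat.lt_div_mul_add (a := i) (b := K / 2 + 1) (by omega)
      omega
  have three : ∀ a b c, a < b → b < c → a ∈ S.filter (fun i => i / (K / 2 + 1) = q) →
      b ∈ S.filter (fun i => i / (K / 2 + 1) = q) → c ∈ S.filter (fun i => i / (K / 2 + 1) = q) →
      cls (K + 1) w m a = cls (K + 1) w m b ∨ cls (K + 1) w m b = cls (K + 1) w m c ∨
        cls (K + 1) w m a = cls (K + 1) w m c := by
    intro a b c hab hbc ha hb hc
    obtain ⟨a1, a2, a3, a4⟩ := hmem a ha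
    obtain ⟨b1, b2, b3, b4⟩ := hmem b hb
    obtain ⟨c1, c2, c3, c4⟩ := hmem c hc
    rcases three_windows hab hbc c1 hm (by omega) a2 b2 c2 with h | h | h
    · exact Or.inl (cls_eq h)
    · exact Or.inr (Or.inl (cls_eq h))
    · exact Or.inr (Or.inr (cls_eq h))
  have nab : a ≠ b := fun e => hxy (by rw [e])
  have nac : a ≠ c := fun e => hxz (by rw [e])
  have nbc : b ≠ c := fun e => hyz (by rw [e])
  rcases lt_or_gt_of_ne nab with h1 | h1 <;> rcases lt_or_gt_of_ne nac with h2 | h2 <;>
    rcases lt_or_gt_of_ne nbc with h3 | h3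
  · rcases three a b c h1 h3 ha hb hc with h | h | h
    exacts [hxy h, hyz h, hxz h]
  · rcases three a c b h2 h3 ha hc hb with h | h | h
    exacts [hxz h, hyz h.symm, hxy h]
  · omega
  · rcases three c a b h2 h1 hc ha hb with h | h | h
    exacts [hxz h.symm, hxy h, hyz h.symm]
  · rcases three b a c h1 h2 hb ha hc with h | h | h
    exacts [hxy h.symm, hxz h, hyz h]
  · omega
  · rcases three b c a h3 h2 hb hc ha with h | h | h
    exacts [hyz h, hxz h.symm, hxy h.symm]
  · rcases three c b a h3 h1 hc hb ha with h | h | h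
    exacts [hyz h.symm, hxy h.symm, hxz h.symm]

theorem pal_subset {K : ℕ} (w : List α) :
    ((fun v => Quotient.mk (kSetoid α (K + 1)) v) '' {v : List α | v <:+: w ∧ KPal (K + 1) v}) ⊆
      (((palF w).image (fun v => Quotient.mk (kSetoid α (K + 1)) v) ∪
        ((Finset.range w.length).filter (fun y => K + 1 ≤ w.length - y)).biUnion
          (fun y => T (K + 1) w (w.length - y)) : Finset (Quotient (kSetoid α (K + 1)))) : Set _) := by
  rintro x ⟨v, ⟨hv1, hv2⟩, rfl⟩
  rw [Finset.mem_coe, Finset.mem_union]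
  by_cases hlen : v.length ≤ K
  · left
    exact Finset.mem_image_of_mem _ (mem_palF.2 ⟨hv1, hv2.pal_of_length_le (by omega)⟩)
  · right
    obtain ⟨i, hi, hw⟩ := infix_eq_win hv1
    rw [Finset.mem_biUnion]
    have hl := hv1.length_le
    refine ⟨w.length - v.length, ?_, ?_⟩
    · rw [Finset.mem_filter, Finset.mem_range]
      constructor <;> omega
    · have e : w.length - (w.length - v.length) = v.length := by omega
      rw [e]
      unfold T
      rw [Finset.mem_image]
      refine ⟨i, ?_, ?_⟩
      · rw [Finset.mem_filter, Finset.mem_range, hw]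
        exact ⟨by omega, hv2⟩
      · unfold cls; rw [hw]

theorem pal_le {K : ℕ} (w : List α) :
    Pal (K + 1) w ≤ (w.length + 1) +
      ∑ y ∈ Finset.range w.length, 2 * (y / (K / 2 + 1) + 1) := by
  unfold Pal
  refine (Set.ncard_le_ncard (pal_subset w) (Finset.finite_toSet _)).trans ?_
  rw [Set.ncard_coe_finset]
  refine (Finset.card_union_le _ _).trans (Nat.add_le_add ?_ ?_)
  · exact (Finset.card_image_le).trans (card_palF w)
  · refine (Finset.card_biUnion_le).trans ?_
    refine (Finset.sum_le_sum (g := fun y => 2 * (y / (K / 2 + 1) + 1)) ?_).trans ?_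
    · intro y hy
      rw [Finset.mem_filter, Finset.mem_range] at hy
      have := card_T (K := K) (w := w) (m := w.length - y) hy.2 (by omega)
      have e : w.length - (w.length - y) = y := by omega
      rw [e] at this
      exact this
    · exact Finset.sum_le_sum_of_subset (Finset.filter_subset _ _)

/-- **Upper bound.** -/
theorem pal_bound (k : ℕ) (hk : 1 ≤ k) (w : List α) :
    k * Pal k w ≤ 2 * w.length ^ 2 + 3 * k * w.length + k := by
  obtain ⟨K, rfl⟩ : ∃ K, k = K + 1 := ⟨k - 1, by omega⟩
  have h := pal_le (K := K) w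
  set n := w.length
  have h2 : (K + 1) * ∑ y ∈ Finset.range n, 2 * (y / (K / 2 + 1) + 1) ≤
      ∑ y ∈ Finset.range n, (4 * y + 2 * (K + 1)) := by
    rw [Finset.mul_sum]
    apply Finset.sum_le_sum
    intro y _
    have e1 : (K / 2 + 1) * (y / (K / 2 + 1)) ≤ y := Nat.mul_div_le _ _
    have e2 : K + 1 ≤ 2 * (K / 2 + 1) := by omega
    have e3 : (K + 1) * (y / (K / 2 + 1)) ≤ 2 * (K / 2 + 1) * (y / (K / 2 + 1)) :=
      Nat.mul_le_mul_right _ e2
    nlinarith
  have h3 : ∑ y ∈ Finset.range n, (4 * y + 2 * (K + 1)) ≤ 2 * n ^ 2 + 2 * (K + 1) * n := by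
    clear_value n
    clear h h2
    induction n with
    | zero => simp
    | succ n ih => rw [Finset.sum_range_succ]; nlinarith
  calc (K + 1) * Pal (K + 1) w
      ≤ (K + 1) * ((n + 1) + ∑ y ∈ Finset.range n, 2 * (y / (K / 2 + 1) + 1)) :=
        Nat.mul_le_mul_left _ h
    _ = (K + 1) * (n + 1) + (K + 1) * ∑ y ∈ Finset.range n, 2 * (y / (K / 2 + 1) + 1) := by ring
    _ ≤ (K + 1) * (n + 1) + (2 * n ^ 2 + 2 * (K + 1) * n) :=
        Nat.add_le_add_left (h2.trans h3) _
    _ = 2 * n ^ 2 + 3 * (K + 1) * n + (K + 1) := by ring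

end Pool.Agent.U104.KAb
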