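import Pool.Agent.U104.KAb.Zone

set_option autoImplicit false
set_option linter.unusedSectionVars false

namespace Pool.Agent.U104.KAb

open List Classical

variable {α : Type*} [DecidableEq α] [Fintype α]

/-- the classes of the palindromic windows of length `m` with start in the `q`-th block of length
`H` -/
noncomputable def blk (k : ℕ) (w : List α) (m H q : ℕ) : Finset (Quotient (kSetoid α k)) :=
  ((Finset.range (w.length - m + 1)).filter
    (fun i => KPal k (win w i m) ∧ i / H = q)).image (cls k w m)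

theorem mem_blk {k : ℕ} {w : List α} {m H q : ℕ} {x : Quotient (kSetoid α k)}
    (hm : m ≤ w.length) (hH : 0 < H) (hx : x ∈ blk k w m H q) :
    ∃ i, cls k w m i = x ∧ i + m ≤ w.length ∧ KPal k (win w i m) ∧ q * H ≤ i ∧ i < q * H + H := by
  unfold blk at hx
  rw [Finset.mem_image] at hx
  obtain ⟨i, hi, rfl⟩ := hx
  rw [Finset.mem_filter, Finset.mem_range] at hi
  obtain ⟨h1, h2, h3⟩ := hi
  refine ⟨i, rfl, by omega, h2, ?_, ?_⟩
  · rw [← h3]; exact Nat.div_mul_le_self _ _
  · rw [← h3]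
    have := Nat.lt_div_mul_add (a := i) (b := H) hH
    omega

theorem card_blk {K : ℕ} {w : List α} {m H q : ℕ} (hm : K + 1 ≤ m) (hw : m ≤ w.length)
    (hH : 0 < H) (hK : 2 * H ≤ K + 1) : (blk (K + 1) w m H q).card ≤ 2 := by
  by_contra hcon
  rw [not_le, Finset.two_lt_card] at hcon
  obtain ⟨x, hx, y, hy, z, hz, hxy, hxz, hyz⟩ := hcon
  obtain ⟨a, rfl, a1, a2, a3, a4⟩ := mem_blk hw hH hx
  obtain ⟨b, rfl, b1, b2, b3, b4⟩ := mem_blk hw hH hy
  obtain ⟨c, rfl, c1, c2, c3, c4⟩ := mem_blk hw hH hz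
  have three : ∀ a b c, a < b → b < c → a + m ≤ w.length → b + m ≤ w.length → c + m ≤ w.length →
      KPal (K + 1) (win w a m) → KPal (K + 1) (win w b m) → KPal (K + 1) (win w c m) →
      q * H ≤ a → c < q * H + H →
      cls (K + 1) w m a = cls (K + 1) w m b ∨ cls (K + 1) w m b = cls (K + 1) w m c ∨
        cls (K + 1) w m a = cls (K + 1) w m c := by
    intro a b c hab hbc _ _ hc ha2 hb2 hc2 h1 h2
    rcases three_windows hab hbc hc hm (by omega) ha2 hb2 hc2 with h | h | h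
    · exact Or.inl (cls_eq h)
    · exact Or.inr (Or.inl (cls_eq h))
    · exact Or.inr (Or.inr (cls_eq h))
  have nab : a ≠ b := fun e => hxy (by rw [e])
  have nac : a ≠ c := fun e => hxz (by rw [e])
  have nbc : b ≠ c := fun e => hyz (by rw [e])
  rcases lt_or_gt_of_ne nab with h1 | h1 <;> rcases lt_or_gt_of_ne nac with h2 | h2 <;>
    rcases lt_or_gt_of_ne nbc with h3 | h3
  · rcases three a b c h1 h3 a1 b1 c1 a2 b2 c2 a3 c4 with h | h | h
    exacts [hxy h, hyz h, hxz h]
  · rcases three a c b h2 h3 a1 c1 b1 a2 c2 b2 a3 b4 with h | h | h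
    exacts [hxz h, hyz h.symm, hxy h]
  · omega
  · rcases three c a b h2 h1 c1 a1 b1 c2 a2 b2 c3 b4 with h | h | h
    exacts [hxz h.symm, hxy h, hyz h.symm]
  · rcases three b a c h1 h2 b1 a1 c1 b2 a2 c2 b3 c4 with h | h | h
    exacts [hxy h.symm, hxz h, hyz h]
  · omega
  · rcases three b c a h3 h2 b1 c1 a1 b2 c2 a2 b3 a4 with h | h | h
    exacts [hyz h, hxz h.symm, hxy h.symm]
  · rcases three c b a h3 h1 c1 b1 a1 c2 b2 a2 c3 a4 with h | h | h
    exacts [hyz h.symm, hxy h.symm, hxz h.symm]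

theorem blk_empty {K : ℕ} {w : List α} {M M' H q : ℕ} (hM : M = M' + 1 ∨ M' = M + 1)
    (hm : K + 1 ≤ M) (hm' : K + 1 ≤ M') (hw : M ≤ w.length) (hw' : M' ≤ w.length)
    (hH : 0 < H) (hK : 2 * H ≤ K + 1) (h2 : 1 < (blk (K + 1) w M H q).card) :
    (blk (K + 1) w M' H q).card = 0 := by
  rw [Finset.one_lt_card] at h2
  obtain ⟨x, hx, y, hy, hxy⟩ := h2
  obtain ⟨a, rfl, a1, a2, a3, a4⟩ := mem_blk hw hH hx
  obtain ⟨b, rfl, b1, b2, b3, b4⟩ := mem_blk hw hH hy
  rw [Finset.card_eq_zero, Finset.eq_empty_iff_forall_notMem]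
  intro z hz
  obtain ⟨c, rfl, c1, c2, c3, c4⟩ := mem_blk hw' hH hz
  rcases lt_trichotomy a b with h | h | h
  · exact hxy (cls_eq (mixed_windows (h := H - 1) h hM a1 b1 c1 hm hm' (by omega) (by omega)
      (by omega) (by omega) a2 b2 c2))
  · exact hxy (by rw [h])
  · exact hxy (cls_eq (mixed_windows (h := H - 1) h hM b1 a1 c1 hm hm' (by omega) (by omega)
      (by omega) (by omega) b2 a2 c2)).symm

theorem blk_pair {K : ℕ} {w : List α} {m H q : ℕ} (hm : K + 1 ≤ m) (hw : m + 1 ≤ w.length)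
    (hH : 0 < H) (hK : 2 * H ≤ K + 1) :
    (blk (K + 1) w m H q).card + (blk (K + 1) w (m + 1) H q).card ≤ 2 := by
  have c1 := card_blk (q := q) hm (by omega : m ≤ w.length) hH hK
  have c2 := card_blk (q := q) (by omega : K + 1 ≤ m + 1) hw hH hK
  by_cases h1 : 1 < (blk (K + 1) w m H q).card
  · have := blk_empty (Or.inr rfl) hm (by omega) (by omega) hw hH hK h1
    omega
  · by_cases h2 : 1 < (blk (K + 1) w (m + 1) H q).card
    · have := blk_empty (Or.inl rfl) (by omega) hm hw (by omega) hH hK h2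
      omega
    · omega

theorem T_subset {k : ℕ} {w : List α} {m H N : ℕ} (hH : 0 < H) (hN : w.length - m ≤ N) :
    T k w m ⊆ (Finset.range (N / H + 1)).biUnion (fun q => blk k w m H q) := by
  intro x hx
  unfold T at hx
  rw [Finset.mem_image] at hx
  obtain ⟨i, hi, rfl⟩ := hx
  rw [Finset.mem_filter, Finset.mem_range] at hi
  rw [Finset.mem_biUnion]
  refine ⟨i / H, ?_, ?_⟩
  · rw [Finset.mem_range]
    have : i / H ≤ N / H := Nat.div_le_div_right (by omega)
    omega
  · unfold blk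
    exact Finset.mem_image_of_mem _ (Finset.mem_filter.2 ⟨Finset.mem_range.2 hi.1, hi.2, rfl⟩)

theorem card_T_le {K : ℕ} {w : List α} {m H N : ℕ} (hm : K + 1 ≤ m) (hw : m ≤ w.length)
    (hH : 0 < H) (hK : 2 * H ≤ K + 1) (hN : w.length - m ≤ N) :
    (T (K + 1) w m).card ≤ 2 * (N / H + 1) := by
  refine (Finset.card_le_card (T_subset hH hN)).trans ?_
  refine (Finset.card_biUnion_le_card_mul _ _ 2 fun q _ => card_blk hm hw hH hK).trans ?_
  rw [Finset.card_range]; omega

theorem card_T_pair {K : ℕ} {w : List α} {m H N : ℕ} (hm : K + 1 ≤ m) (hw : m + 1 ≤ w.length)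
    (hH : 0 < H) (hK : 2 * H ≤ K + 1) (hN : w.length - m ≤ N) :
    (T (K + 1) w m).card + (T (K + 1) w (m + 1)).card ≤ 2 * (N / H + 1) := by
  have h1 := (Finset.card_le_card (T_subset (k := K + 1) (w := w) (m := m) hH hN)).trans
    Finset.card_biUnion_le
  have h2 := (Finset.card_le_card (T_subset (k := K + 1) (w := w) (m := m + 1) hH
    (by omega : w.length - (m + 1) ≤ N))).trans Finset.card_biUnion_le
  have h3 : ∑ q ∈ Finset.range (N / H + 1),
      ((blk (K + 1) w m H q).card + (blk (K + 1) w (m + 1) H q).card) ≤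
      ∑ _q ∈ Finset.range (N / H + 1), 2 := Finset.sum_le_sum fun q _ => blk_pair hm hw hH hK
  rw [Finset.sum_add_distrib, Finset.sum_const, Finset.card_range, smul_eq_mul] at h3
  omega

/-- number of classes of length `|w| - y` (`0` if that length is smaller than `k`) -/
noncomputable def tt (K : ℕ) (w : List α) (y : ℕ) : ℕ :=
  if K + 1 ≤ w.length - y then (T (K + 1) w (w.length - y)).card else 0

theorem tt_pair {K : ℕ} {w : List α} {H z : ℕ} (hH : 0 < H) (hK : 2 * H ≤ K + 1) :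
    tt K w (2 * z) + tt K w (2 * z + 1) ≤ 2 * ((2 * z + 1) / H + 1) := by
  unfold tt
  by_cases h1 : K + 1 ≤ w.length - (2 * z + 1)
  · rw [if_pos (by omega), if_pos h1]
    have e : w.length - 2 * z = w.length - (2 * z + 1) + 1 := by omega
    rw [e]
    have := card_T_pair (w := w) (m := w.length - (2 * z + 1)) (N := 2 * z + 1) h1 (by omega) hH hK
      (by omega)
    omega
  · rw [if_neg h1]
    by_cases h2 : K + 1 ≤ w.length - 2 * z
    · rw [if_pos h2]
      have := card_T_le (w := w) (m := w.length - 2 * z) (N := 2 * z + 1) h2 (by omega) hH hK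
        (by omega)
      omega
    · rw [if_neg h2]; omega

theorem sum_range_pairs (f : ℕ → ℕ) (Z : ℕ) :
    ∑ y ∈ Finset.range (2 * Z), f y = ∑ z ∈ Finset.range Z, (f (2 * z) + f (2 * z + 1)) := by
  induction Z with
  | zero => simp
  | succ Z ih =>
    rw [show 2 * (Z + 1) = 2 * Z + 1 + 1 by ring, Finset.sum_range_succ, Finset.sum_range_succ, ih,
      Finset.sum_range_succ]
    ring

theorem pal_le_tt {K : ℕ} (w : List α) :
    Pal (K + 1) w ≤ (w.length + 1) + ∑ y ∈ Finset.range w.length, tt K w y := by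
  unfold Pal
  refine (Set.ncard_le_ncard (pal_subset w) (Finset.finite_toSet _)).trans ?_
  rw [Set.ncard_coe_finset]
  refine (Finset.card_union_le _ _).trans (Nat.add_le_add ?_ ?_)
  · exact (Finset.card_image_le).trans (card_palF w)
  · refine (Finset.card_biUnion_le).trans ?_
    rw [Finset.sum_filter]
    exact le_rfl

/-- **Upper bound.** For `k ≥ 2` and every word of length `n` over a finite alphabet,
`Pal k w ≤ (n + 1) ^ 2 / (2 H) + 2 (n + 1)` where `H = ⌊k / 2⌋`. -/
theorem pal_upper {K H : ℕ} (hH : 0 < H) (hK : 2 * H ≤ K + 1) (w : List α) :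
    2 * H * Pal (K + 1) w ≤ (w.length + 1) ^ 2 + 4 * H * (w.length + 1) := by
  have h0 := pal_le_tt (K := K) w
  set n := w.length with hn
  set Z := (n + 1) / 2 with hZ
  have h1 : ∑ y ∈ Finset.range n, tt K w y ≤ ∑ z ∈ Finset.range Z, 2 * ((2 * z + 1) / H + 1) := by
    calc ∑ y ∈ Finset.range n, tt K w y ≤ ∑ y ∈ Finset.range (2 * Z), tt K w y :=
          Finset.sum_le_sum_of_subset (Finset.range_mono (by omega))
      _ = ∑ z ∈ Finset.range Z, (tt K w (2 * z) + tt K w (2 * z + 1)) := sum_range_pairs _ _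
      _ ≤ _ := Finset.sum_le_sum fun z _ => tt_pair hH hK
  have h2 : 2 * H * ∑ z ∈ Finset.range Z, 2 * ((2 * z + 1) / H + 1) ≤
      ∑ z ∈ Finset.range Z, (4 * (2 * z + 1) + 4 * H) := by
    rw [Finset.mul_sum]
    apply Finset.sum_le_sum
    intro z _
    have e1 : H * ((2 * z + 1) / H) ≤ 2 * z + 1 := Nat.mul_div_le _ _
    nlinarith
  have h3 : ∑ z ∈ Finset.range Z, (4 * (2 * z + 1) + 4 * H) = 4 * Z ^ 2 + 4 * H * Z := by
    clear_value Z
    clear h1 h2 hZ
    induction Z with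
    | zero => simp
    | succ Z ih => rw [Finset.sum_range_succ, ih]; ring
  have h4 : 2 * Z ≤ n + 1 := by omega
  have h5 : 4 * Z ^ 2 ≤ (n + 1) ^ 2 := by
    have := Nat.pow_le_pow_left h4 2
    nlinarith
  have h6 : 4 * H * Z ≤ 2 * H * (n + 1) := by nlinarith
  calc 2 * H * Pal (K + 1) w
      ≤ 2 * H * ((n + 1) + ∑ y ∈ Finset.range n, tt K w y) := Nat.mul_le_mul_left _ h0
    _ ≤ 2 * H * ((n + 1) + ∑ z ∈ Finset.range Z, 2 * ((2 * z + 1) / H + 1)) :=
        Nat.mul_le_mul_left _ (Nat.add_le_add_left h1 _)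
    _ = 2 * H * (n + 1) + 2 * H * ∑ z ∈ Finset.range Z, 2 * ((2 * z + 1) / H + 1) := by ring
    _ ≤ 2 * H * (n + 1) + (4 * Z ^ 2 + 4 * H * Z) := Nat.add_le_add_left (h2.trans h3.le) _
    _ ≤ 2 * H * (n + 1) + ((n + 1) ^ 2 + 2 * H * (n + 1)) :=
        Nat.add_le_add_left (Nat.add_le_add h5 h6) _
    _ = (n + 1) ^ 2 + 4 * H * (n + 1) := by ring

end Pool.Agent.U104.KAb
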