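import Pool.Agent.U104.KAb.Abelian

set_option autoImplicit false
set_option linter.unusedSectionVars false

namespace Pool.Agent.U104.KAb

open List Classical

section graph
variable {α : Type*} [DecidableEq α]

/-- positions adjacent when they carry different letters -/
def dgraph (w : List α) : SimpleGraph (Fin w.length) := SimpleGraph.comap w.get ⊤

theorem dgraph_adj (w : List α) (i j : Fin w.length) :
    (dgraph w).Adj i j ↔ w.get i ≠ w.get j := by
  simp [dgraph]

theorem card_dgraph (w : List α) : (dpairs w).card = (dgraph w).edgeFinset.card := by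
  have hmem : ∀ p, p ∈ dpairs w ↔ (p.1 < w.length ∧ p.2 < w.length) ∧ p.1 < p.2 ∧
      w[p.1]? ≠ w[p.2]? := by
    intro p
    unfold dpairs
    rw [Finset.mem_filter, Finset.mem_product, Finset.mem_range, Finset.mem_range]
  refine Finset.card_bij (fun p hp => s(⟨p.1, ((hmem p).1 hp).1.1⟩, ⟨p.2, ((hmem p).1 hp).1.2⟩))
    ?_ ?_ ?_
  · intro p hp
    obtain ⟨⟨h1, h2⟩, h3, h4⟩ := (hmem p).1 hp
    rw [SimpleGraph.mem_edgeFinset, SimpleGraph.mem_edgeSet, dgraph_adj]
    intro he
    apply h4
    rw [getElem?_eq_getElem h1, getElem?_eq_getElem h2]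
    simpa using he
  · intro p hp q hq he
    obtain ⟨⟨h1, h2⟩, h3, h4⟩ := (hmem p).1 hp
    obtain ⟨⟨g1, g2⟩, g3, g4⟩ := (hmem q).1 hq
    rw [Sym2.eq_iff] at he
    rcases he with ⟨e1, e2⟩ | ⟨e1, e2⟩
    · have a1 := congrArg Fin.val e1
      have a2 := congrArg Fin.val e2
      exact Prod.ext a1 a2
    · have a1 := congrArg Fin.val e1
      have a2 := congrArg Fin.val e2
      simp only at a1 a2
      omega
  · intro e he
    rw [SimpleGraph.mem_edgeFinset] at he
    induction e with
    | _ i j =>
      rw [SimpleGraph.mem_edgeSet, dgraph_adj] at he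
      have hne : i ≠ j := fun e => he (by rw [e])
      have hq : w[i.1]? ≠ w[j.1]? := by
        rw [getElem?_eq_getElem i.2, getElem?_eq_getElem j.2]
        intro h
        apply he
        simpa using h
      rcases lt_or_gt_of_ne (fun e => hne (Fin.ext e) : i.1 ≠ j.1) with h | h
      · exact ⟨(i.1, j.1), (hmem _).2 ⟨⟨i.2, j.2⟩, h, hq⟩, rfl⟩
      · exact ⟨(j.1, i.1), (hmem _).2 ⟨⟨j.2, i.2⟩, h, hq.symm⟩, Sym2.eq_swap⟩

/-- the Turán number: the largest number of edges of a graph with `n` vertices which has a proper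
colouring with `l` colours -/
def turan (n l : ℕ) : ℕ := (n ^ 2 - (n % l) ^ 2) * (l - 1) / (2 * l) + (n % l).choose 2

theorem card_dpairs_le {l : ℕ} (w : List (Fin l)) : (dpairs w).card ≤ turan w.length l := by
  rw [card_dgraph]
  have hc : (dgraph w).Colorable l := by
    have C : (dgraph w).Coloring (Fin l) :=
      SimpleGraph.Coloring.mk w.get (fun {i j} h => (dgraph_adj w i j).1 h)
    simpa using C.colorable
  have := (hc.cliqueFree (Nat.lt_succ_self l)).card_edgeFinset_le
  simpa [turan] using this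

/-- a monotone word whose letters are as balanced as possible -/
noncomputable def bal (l : ℕ) (hl : 0 < l) (n : ℕ) : List (Fin l) :=
  List.ofFn (fun i : Fin n => (fun j : Fin n => (⟨j.1 % l, Nat.mod_lt _ hl⟩ : Fin l))
    (Tuple.sort (fun j : Fin n => (⟨j.1 % l, Nat.mod_lt _ hl⟩ : Fin l)) i))

theorem bal_length (l : ℕ) (hl : 0 < l) (n : ℕ) : (bal l hl n).length = n := by
  unfold bal; simp

theorem bal_mono (l : ℕ) (hl : 0 < l) (n : ℕ) {i j : ℕ} (hij : i ≤ j) (hj : j < (bal l hl n).length) :
    (bal l hl n)[i]'(by omega) ≤ (bal l hl n)[j] := by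
  have := Tuple.monotone_sort (fun j : Fin n => (⟨j.1 % l, Nat.mod_lt _ hl⟩ : Fin l))
  unfold bal at hj ⊢
  simp only [List.getElem_ofFn]
  rw [length_ofFn] at hj
  exact this (show (⟨i, by omega⟩ : Fin n) ≤ ⟨j, hj⟩ from hij)

theorem card_dpairs_bal (l : ℕ) (hl : 0 < l) (n : ℕ) :
    (dpairs (bal l hl n)).card = turan n l := by
  rw [card_dgraph]
  have hlen := bal_length l hl n
  let σ := Tuple.sort (fun j : Fin n => (⟨j.1 % l, Nat.mod_lt _ hl⟩ : Fin l))
  let e : Fin (bal l hl n).length ≃ Fin n := (finCongr hlen).trans σ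
  have iso : dgraph (bal l hl n) ≃g SimpleGraph.turanGraph n l :=
    { toEquiv := e
      map_rel_iff' := by
        intro i j
        rw [dgraph_adj, SimpleGraph.turanGraph_adj]
        have hg : ∀ i : Fin (bal l hl n).length, (bal l hl n).get i =
            (⟨(e i).1 % l, Nat.mod_lt _ hl⟩ : Fin l) := by
          intro i
          unfold bal
          simp only [List.get_eq_getElem, List.getElem_ofFn]
          rfl
        rw [hg i, hg j, ne_eq, ne_eq, Fin.mk.injEq] }
  rw [iso.card_edgeFinset_eq, SimpleGraph.card_edgeFinset_turanGraph]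
  rfl

end graph

end Pool.Agent.U104.KAb
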