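import Pool.Agent.U104.KAb.Windows

set_option autoImplicit false
set_option linter.unusedSectionVars false

namespace Pool.Agent.U104.KAb

open List

section
variable {α : Type*} [DecidableEq α]

/-- gluing of occurrences along a word `z` -/
theorem occ_glue (X z Y t : List α) (ht : t.length ≤ z.length + 1) :
    occ (X ++ (z ++ Y)) t + occ z t = occ (X ++ z) t + occ (z ++ Y) t := by
  induction X with
  | nil => simp [add_comm]
  | cons x X ih =>
    rw [cons_append, cons_append, occ_cons, occ_cons]
    have : t <+: x :: (X ++ (z ++ Y)) ↔ t <+: x :: (X ++ z) := by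
      have e : x :: (X ++ (z ++ Y)) = (x :: (X ++ z)) ++ Y := by simp
      rw [e]
      constructor
      · intro h
        exact prefix_of_prefix_length_le h (prefix_append _ _) (by simp; omega)
      · intro h; exact h.trans (prefix_append _ _)
    simp only [this]
    omega

/-- the word `a^s b a^(K+e₁) b ⋯ b a^(K+e_p) b a^s'` -/
def gw (a b : α) (K : ℕ) : ℕ → List ℕ → ℕ → List α
  | s, [], s' => replicate s a ++ b :: replicate s' a
  | s, e :: es, s' => replicate s a ++ b :: gw a b K (K + e) es s'

variable {a b : α} {K : ℕ}

theorem gw_add (x s : ℕ) (es : List ℕ) (s' : ℕ) :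
    gw a b K (x + s) es s' = replicate x a ++ gw a b K s es s' := by
  cases es with
  | nil => simp only [gw]; rw [replicate_add, append_assoc]
  | cons e es => simp only [gw]; rw [replicate_add, append_assoc]

theorem gw_concat (s : ℕ) (es : List ℕ) (e s' : ℕ) :
    gw a b K s (es ++ [e]) s' = gw a b K s es (K + e) ++ b :: replicate s' a := by
  induction es generalizing s with
  | nil => simp [gw]
  | cons f es ih => simp only [cons_append, gw]; rw [ih]; simp

theorem gw_reverse (s : ℕ) (es : List ℕ) (s' : ℕ) :
    (gw a b K s es s').reverse = gw a b K s' es.reverse s := by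
  induction es generalizing s with
  | nil => simp [gw]
  | cons e es ih =>
    rw [reverse_cons, gw_concat, ← ih]
    simp [gw]

theorem occ_gw_step (s e : ℕ) (es : List ℕ) (s' : ℕ) {t : List α} (ht : t.length ≤ K + 1) :
    occ (gw a b K s (e :: es) s') t + 2 * occ (replicate K a) t =
      occ (replicate s a ++ b :: replicate K a) t + occ (replicate (K + e) a) t +
        occ (gw a b K K es s') t := by
  obtain ⟨R, hR⟩ : ∃ R, ∀ x, gw a b K x es s' = replicate x a ++ R := by
    cases es with
    | nil => exact ⟨_, fun x => rfl⟩
    | cons f es => exact ⟨_, fun x => rfl⟩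
  have hz : (replicate K a).length = K := length_replicate
  have e1 : gw a b K s (e :: es) s' =
      (replicate s a ++ [b]) ++ (replicate K a ++ (replicate e a ++ R)) := by
    simp only [gw]; rw [hR, replicate_add]
    simp only [append_assoc, cons_append, nil_append]
  have g1 := occ_glue (replicate s a ++ [b]) (replicate K a) (replicate e a ++ R) t
    (by rw [hz]; exact ht)
  have e2 : replicate K a ++ (replicate e a ++ R) = replicate e a ++ (replicate K a ++ R) := by
    rw [← append_assoc, ← append_assoc, ← replicate_add, ← replicate_add, add_comm]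
  have g2 := occ_glue (replicate e a) (replicate K a) R t (by rw [hz]; exact ht)
  rw [← e2, ← replicate_add] at g2
  rw [← e1] at g1
  have e3 : (replicate s a ++ [b]) ++ replicate K a = replicate s a ++ b :: replicate K a := by simp
  rw [e3] at g1
  rw [hR K, add_comm K e]
  omega

theorem occ_gw_K (es : List ℕ) (s' : ℕ) {t : List α} (ht : t.length ≤ K + 1) :
    occ (gw a b K K es s') t + 2 * es.length * occ (replicate K a) t =
      es.length * occ (replicate K a ++ b :: replicate K a) t +
        (es.map (fun e => occ (replicate (K + e) a) t)).sum +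
        occ (replicate K a ++ b :: replicate s' a) t := by
  induction es with
  | nil => simp [gw]
  | cons e es ih =>
    have h := occ_gw_step (a := a) (b := b) K e es s' ht
    rw [length_cons, map_cons, sum_cons]
    have e1 : 2 * (es.length + 1) * occ (replicate K a) t =
      2 * es.length * occ (replicate K a) t + 2 * occ (replicate K a) t := by ring
    have e2 : (es.length + 1) * occ (replicate K a ++ b :: replicate K a) t =
      es.length * occ (replicate K a ++ b :: replicate K a) t +
        occ (replicate K a ++ b :: replicate K a) t := by ring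
    rw [e1, e2]
    omega

theorem occ_gw_perm (s : ℕ) {es es' : List ℕ} (hp : es.Perm es') (s' : ℕ) {t : List α}
    (ht : t.length ≤ K + 1) : occ (gw a b K s es s') t = occ (gw a b K s es' s') t := by
  have main : ∀ (e : ℕ) (es : List ℕ), occ (gw a b K s (e :: es) s') t +
      2 * (e :: es).length * occ (replicate K a) t +
      occ (replicate K a ++ b :: replicate K a) t =
      occ (replicate s a ++ b :: replicate K a) t +
      (e :: es).length * occ (replicate K a ++ b :: replicate K a) t +
      ((e :: es).map (fun e => occ (replicate (K + e) a) t)).sum +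
        occ (replicate K a ++ b :: replicate s' a) t := by
    intro e es
    have h := occ_gw_step (a := a) (b := b) s e es s' ht
    have h' := occ_gw_K (a := a) (b := b) es s' ht
    rw [length_cons, map_cons, sum_cons]
    have e1 : 2 * (es.length + 1) * occ (replicate K a) t =
      2 * es.length * occ (replicate K a) t + 2 * occ (replicate K a) t := by ring
    have e2 : (es.length + 1) * occ (replicate K a ++ b :: replicate K a) t =
      es.length * occ (replicate K a ++ b :: replicate K a) t +
        occ (replicate K a ++ b :: replicate K a) t := by ring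
    rw [e1, e2]
    omega
  rcases es with _ | ⟨e, es⟩
  · have : es' = [] := hp.symm.eq_nil
    rw [this]
  · rcases es' with _ | ⟨e', es'⟩
    · exact absurd hp.eq_nil (by simp)
    · have h1 := main e es
      have h2 := main e' es'
      rw [hp.length_eq, (hp.map _).sum_eq] at h1
      omega

theorem kpal_gw (s : ℕ) (es : List ℕ) : KPal (K + 1) (gw a b K s es s) := by
  intro t ht
  rw [gw_reverse]
  exact occ_gw_perm s es.reverse_perm.symm s ht

theorem length_gw (s : ℕ) (es : List ℕ) (s' : ℕ) :
    (gw a b K s es s').length = s + s' + (es.length + 1) + K * es.length + es.sum := by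
  induction es generalizing s with
  | nil => simp [gw]; ring
  | cons e es ih => simp only [gw, length_append, length_replicate, length_cons, ih, sum_cons]; ring

theorem occ_single_append (u v : List α) (c : α) :
    occ (u ++ v) [c] = occ u [c] + occ v [c] := by
  induction u with
  | nil => simp [occ_nil]
  | cons x u ih =>
    rw [cons_append, occ_cons, occ_cons, ih]
    have : [c] <+: x :: (u ++ v) ↔ [c] <+: x :: u := by simp
    simp only [this]
    omega

theorem occ_single_replicate (hab : a ≠ b) (s : ℕ) : occ (replicate s a) [b] = 0 := by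
  induction s with
  | zero => simp [occ_nil]
  | succ s ih =>
    rw [replicate_succ, occ_cons, ih, if_neg]
    simp [hab.symm]

theorem occ_b_gw (hab : a ≠ b) (s : ℕ) (es : List ℕ) (s' : ℕ) :
    occ (gw a b K s es s') [b] = es.length + 1 := by
  induction es generalizing s with
  | nil =>
    simp only [gw]
    rw [occ_single_append, occ_single_replicate hab, occ_cons, occ_single_replicate hab]
    simp
  | cons e es ih =>
    simp only [gw]
    rw [occ_single_append, occ_single_replicate hab, occ_cons, ih]
    simp

theorem gw_prefix (s : ℕ) (es : List ℕ) (s' : ℕ) : replicate s a ++ [b] <+: gw a b K s es s' := by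
  cases es with
  | nil => simp only [gw]; exact ⟨replicate s' a, by simp⟩
  | cons e es => simp only [gw]; exact ⟨gw a b K (K + e) es s', by simp⟩

/-- the data `p`, `∑ e_i` and `s` can be read off the class of `a^s b ⋯ b a^s` -/
theorem gw_inj [Fintype α] (hab : a ≠ b) {s s₂ : ℕ} {es es₂ : List ℕ} (hs : s ≤ K) (hs₂ : s₂ ≤ K)
    (h : KEquiv (K + 1) (gw a b K s es s) (gw a b K s₂ es₂ s₂)) :
    s = s₂ ∧ es.length = es₂.length ∧ es.sum = es₂.sum := by
  have h1 : es.length = es₂.length := by
    have := h [b] (by simp)
    rw [occ_b_gw hab, occ_b_gw hab] at this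
    omega
  have aux : ∀ {s s₂ : ℕ} {es es₂ : List ℕ}, s < s₂ → s₂ ≤ K →
      KEquiv (K + 1) (gw a b K s es s) (gw a b K s₂ es₂ s₂) → False := by
    intro s s₂ es es₂ hlt hle h
    have p1 : replicate (s + 1) a <+: gw a b K s₂ es₂ s₂ := by
      refine IsPrefix.trans ?_ (gw_prefix s₂ es₂ s₂)
      refine IsPrefix.trans ?_ (prefix_append _ _)
      exact ⟨replicate (s₂ - (s + 1)) a, by rw [← replicate_add]; congr 1; omega⟩
    have p2 := (h.prefix_iff (t := replicate (s + 1) a) (by simp; omega)).2 p1
    have p3 : replicate s a ++ [b] <+: gw a b K s es s := gw_prefix s es s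
    have p4 := prefix_of_prefix_length_le p2 p3 (by simp)
    have p5 := p4.eq_of_length (by simp)
    have p6 := congrArg (fun l => l[s]?) p5
    simp at p6
    exact hab p6
  have h2 : s = s₂ := by
    rcases lt_trichotomy s s₂ with hlt | heq | hgt
    · exact (aux hlt hs₂ h).elim
    · exact heq
    · exact (aux hgt hs h.symm).elim
  refine ⟨h2, h1, ?_⟩
  have := h.length_eq
  rw [length_gw, length_gw, h1, h2] at this
  omega

theorem gw_suffix (L₁ L₂ : List ℕ) (s' : ℕ) :
    gw a b K K L₂ s' <:+ gw a b K K (L₁ ++ L₂) s' := by
  induction L₁ with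
  | nil => exact suffix_rfl
  | cons e L₁ ih =>
    refine ih.trans ?_
    simp only [cons_append, gw]
    rw [add_comm K e, gw_add]
    exact ⟨replicate K a ++ b :: replicate e a, by simp⟩

theorem gw_prefix' (L₁ L₂ : List ℕ) (s : ℕ) :
    gw a b K s L₁ K <+: gw a b K s (L₁ ++ L₂) K := by
  rw [← reverse_suffix, gw_reverse, gw_reverse, reverse_append]
  exact gw_suffix _ _ _

theorem gw_shrink_left {s : ℕ} (hs : s ≤ K) (L : List ℕ) (s' : ℕ) :
    gw a b K s L s' <:+ gw a b K K L s' := by
  obtain ⟨x, hx⟩ : ∃ x, K = x + s := ⟨K - s, by omega⟩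
  have := gw_add (a := a) (b := b) (K := K) x s L s'
  rw [← hx] at this
  rw [this]
  exact suffix_append _ _

theorem gw_shrink_right {s' : ℕ} (hs : s' ≤ K) (L : List ℕ) (s : ℕ) :
    gw a b K s L s' <+: gw a b K s L K := by
  rw [← reverse_suffix, gw_reverse, gw_reverse]
  exact gw_shrink_left hs _ _

theorem gw_infix {s : ℕ} (hs : s ≤ K) {L' L : List ℕ} (h : L' <:+: L) :
    gw a b K s L' s <:+: gw a b K K L K := by
  obtain ⟨P, Q, rfl⟩ := h
  have h1 : gw a b K s L' s <:+: gw a b K s L' K := (gw_shrink_right hs L' s).isInfix
  have h2 : gw a b K s L' K <:+: gw a b K K L' K := (gw_shrink_left hs L' K).isInfix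
  have h3 : gw a b K K L' K <:+: gw a b K K (L' ++ Q) K := (gw_prefix' L' Q K).isInfix
  have h4 : gw a b K K (L' ++ Q) K <:+: gw a b K K (P ++ (L' ++ Q)) K := (gw_suffix P (L' ++ Q) K).isInfix
  rw [append_assoc]
  exact h1.trans (h2.trans (h3.trans h4))

end

end Pool.Agent.U104.KAb
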