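import Pool.Agent.U104.KAb.LowerGen

set_option autoImplicit false
set_option linter.unusedSectionVars false

namespace Pool.Agent.U104.KAb

open List

/-- `M k l n` is the largest number of classes of `k`-palindromic factors of a word of length `n`
over an alphabet with `l` letters. -/
noncomputable def M (k l n : ℕ) : ℕ :=
  sSup {c | ∃ w : List (Fin l), w.length = n ∧ Pal k w = c}

theorem bdd (k l n : ℕ) (hk : 1 ≤ k) :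
    BddAbove {c | ∃ w : List (Fin l), w.length = n ∧ Pal k w = c} := by
  refine ⟨2 * n ^ 2 + 3 * k * n + k, ?_⟩
  rintro c ⟨w, hw, rfl⟩
  have := pal_bound k hk w
  rw [hw] at this
  nlinarith [Nat.mul_le_mul_right (Pal k w) hk]

theorem ne {k l n : ℕ} (hl : 1 ≤ l) :
    {c | ∃ w : List (Fin l), w.length = n ∧ Pal k w = c}.Nonempty :=
  ⟨_, replicate n (⟨0, hl⟩ : Fin l), by simp, rfl⟩

theorem M_one (l n : ℕ) (hl : 1 ≤ l) : M 1 l n = n + 1 + turan n l := by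
  apply le_antisymm
  · refine csSup_le (ne hl) ?_
    rintro c ⟨w, hw, rfl⟩
    have h1 := pal_one_le w
    have h2 := card_dpairs_le w
    rw [hw] at h1 h2
    omega
  · have h1 := le_pal_one (w := bal l hl n) (fun i j hij hj => bal_mono l hl n hij hj)
    rw [bal_length, card_dpairs_bal] at h1
    exact h1.trans (le_csSup (bdd 1 l n le_rfl) ⟨bal l hl n, bal_length l hl n, rfl⟩)

theorem M_upper (k l n : ℕ) (hk : 2 ≤ k) (hl : 1 ≤ l) :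
    2 * (k / 2) * M k l n ≤ (n + 1) ^ 2 + 4 * (k / 2) * (n + 1) := by
  have hmem : M k l n ∈ {c | ∃ w : List (Fin l), w.length = n ∧ Pal k w = c} :=
    Nat.sSup_mem (ne hl) (bdd k l n (by omega))
  obtain ⟨w, hw, e⟩ := hmem
  rw [← e]
  obtain ⟨K, rfl⟩ : ∃ K, k = K + 1 := ⟨k - 1, by omega⟩
  have := pal_upper (K := K) (H := (K + 1) / 2) (by omega) (by omega) w
  rw [hw] at this
  exact this

theorem M_lower (k l B N n : ℕ) (hk : 1 ≤ k) (hl : 2 ≤ l) (hB : 1 ≤ B)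
    (hn : 4 * k + N * (2 * k + B) ≤ 2 * n) : k * (N + 1 + turan N B) ≤ M k l n := by
  obtain ⟨K, rfl⟩ : ∃ K, k = K + 1 := ⟨k - 1, by omega⟩
  obtain ⟨w, hw, h⟩ := lower_all (α := Fin l) ⟨0, by omega⟩ ⟨1, by omega⟩ (by simp) K B N n hB
    (by nlinarith)
  exact h.trans (le_csSup (bdd _ l n (by omega)) ⟨w, hw, rfl⟩)

theorem turan_lower (N B : ℕ) (hB : 1 ≤ B) :
    (1 - 1 / (B : ℝ)) * (N : ℝ) ^ 2 / 2 - (B : ℝ) ^ 2 / 2 - 1 ≤ (turan N B : ℝ) := by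
  unfold turan
  have hB0 : (0 : ℝ) < B := by exact_mod_cast hB
  set r := N % B with hr
  have hrB : r < B := Nat.mod_lt _ (by omega)
  have hrN : r ≤ N := Nat.mod_le _ _
  have h1 : ((N ^ 2 - r ^ 2) * (B - 1) : ℕ) < (2 * B) * ((N ^ 2 - r ^ 2) * (B - 1) / (2 * B) + 1) := by
    have := Nat.lt_mul_div_succ ((N ^ 2 - r ^ 2) * (B - 1)) (by omega : 0 < 2 * B)
    exact this
  have h2 : (((N ^ 2 - r ^ 2) * (B - 1) : ℕ) : ℝ) = ((N : ℝ) ^ 2 - (r : ℝ) ^ 2) * ((B : ℝ) - 1) := by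
    rw [Nat.cast_mul, Nat.cast_sub (Nat.pow_le_pow_left hrN 2), Nat.cast_sub hB]
    push_cast; ring
  set Q := (N ^ 2 - r ^ 2) * (B - 1) / (2 * B) with hQ
  have h3 : ((N : ℝ) ^ 2 - (r : ℝ) ^ 2) * ((B : ℝ) - 1) < (2 * B) * ((Q : ℝ) + 1) := by
    rw [← h2]; exact_mod_cast h1
  have hr2 : (r : ℝ) ^ 2 ≤ (B : ℝ) ^ 2 := by
    have : (r : ℝ) ≤ B := by exact_mod_cast hrB.le
    have h0 : (0 : ℝ) ≤ r := Nat.cast_nonneg _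
    nlinarith
  have hB1 : (0 : ℝ) ≤ (B : ℝ) - 1 := by
    have : (1 : ℝ) ≤ B := by exact_mod_cast hB
    linarith
  have h4 : (1 - 1 / (B : ℝ)) * (N : ℝ) ^ 2 / 2 - (B : ℝ) ^ 2 / 2 - 1 ≤ (Q : ℝ) := by
    have e : (1 - 1 / (B : ℝ)) * (N : ℝ) ^ 2 / 2 = (N : ℝ) ^ 2 * ((B : ℝ) - 1) / (2 * B) := by
      field_simp
    rw [e]
    have h5 : (N : ℝ) ^ 2 * ((B : ℝ) - 1) / (2 * B) ≤ Q + 1 + (B : ℝ) ^ 2 / 2 := by
      rw [div_le_iff₀ (by positivity)]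
      have h6 : (r : ℝ) ^ 2 * ((B : ℝ) - 1) ≤ (B : ℝ) ^ 2 * B := by
        calc (r : ℝ) ^ 2 * ((B : ℝ) - 1) ≤ (B : ℝ) ^ 2 * ((B : ℝ) - 1) :=
              mul_le_mul_of_nonneg_right hr2 hB1
          _ ≤ (B : ℝ) ^ 2 * B := mul_le_mul_of_nonneg_left (by linarith) (by positivity)
      nlinarith
    linarith
  have h7 : (Q : ℝ) ≤ ((Q + r.choose 2 : ℕ) : ℝ) := by
    exact_mod_cast Nat.le_add_right _ _
  exact h4.trans h7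

theorem asym_upper {ε : ℝ} (hε : 0 < ε) : ∃ k₀ : ℕ, ∀ k ≥ k₀, ∃ n₀ : ℕ, ∀ n ≥ n₀, ∀ l ≥ 1,
    (k : ℝ) * M k l n ≤ (1 + ε) * (n : ℝ) ^ 2 := by
  obtain ⟨k₁, hk₁⟩ := exists_nat_ge (1 + 2 / ε)
  refine ⟨k₁ + 2, fun k hk => ?_⟩
  obtain ⟨n₁, hn₁⟩ := exists_nat_ge (4 * ((1 + ε / 2) * (2 + 4 * ((k / 2 : ℕ) : ℝ))) / ε)
  refine ⟨n₁ + 1, fun n hn l hl => ?_⟩
  have h := M_upper k l n (by omega) hl
  set H := k / 2 with hH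
  have hHk : k ≤ 2 * H + 1 := by omega
  have hH1 : 1 ≤ H := by omega
  have hR : (2 * (H : ℝ)) * M k l n ≤ ((n : ℝ) + 1) ^ 2 + 4 * H * (n + 1) := by exact_mod_cast h
  have hkR : (k : ℝ) ≤ 2 * H + 1 := by exact_mod_cast hHk
  have hk0 : (k₁ : ℝ) + 2 ≤ k := by exact_mod_cast hk
  have hHpos : (0 : ℝ) < 2 * H := by
    have : (1 : ℝ) ≤ H := by exact_mod_cast hH1
    linarith
  -- k / (2H) ≤ 1 + ε / 2
  have hratio : (k : ℝ) ≤ (1 + ε / 2) * (2 * H) := by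
    have h1 : 2 / ε ≤ 2 * (H : ℝ) := by linarith
    have h2 : 1 ≤ ε / 2 * (2 * H) := by
      rw [div_le_iff₀ hε] at h1
      linarith
    linarith
  have hM0 : (0 : ℝ) ≤ M k l n := Nat.cast_nonneg _
  have h3 : (k : ℝ) * M k l n ≤ (1 + ε / 2) * (((n : ℝ) + 1) ^ 2 + 4 * H * (n + 1)) := by
    calc (k : ℝ) * M k l n ≤ ((1 + ε / 2) * (2 * H)) * M k l n :=
          mul_le_mul_of_nonneg_right hratio hM0
      _ = (1 + ε / 2) * ((2 * H) * M k l n) := by ring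
      _ ≤ _ := mul_le_mul_of_nonneg_left hR (by positivity)
  set A : ℝ := (1 + ε / 2) * (2 + 4 * (H : ℝ)) with hA
  have hnR : (n₁ : ℝ) + 1 ≤ n := by exact_mod_cast hn
  have hn1 : (1 : ℝ) ≤ n := by
    have : (0 : ℝ) ≤ n₁ := Nat.cast_nonneg _
    linarith
  have h4 : 4 * A ≤ ε * n := by
    have h5 : 4 * A / ε ≤ n := hn₁.trans (by linarith)
    rw [div_le_iff₀ hε] at h5
    linarith
  have hA0 : 0 < A := by positivity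
  have h5 : A * (n + 1) ≤ ε / 2 * (n : ℝ) ^ 2 := by nlinarith
  have h6 : (1 + ε / 2) * (((n : ℝ) + 1) ^ 2 + 4 * H * (n + 1)) ≤
      (1 + ε / 2) * (n : ℝ) ^ 2 + A * (n + 1) := by
    rw [hA]
    have : 0 ≤ (1 + ε / 2) := by positivity
    nlinarith
  calc (k : ℝ) * M k l n ≤ _ := h3
    _ ≤ _ := h6
    _ ≤ (1 + ε / 2) * (n : ℝ) ^ 2 + ε / 2 * (n : ℝ) ^ 2 := by linarith
    _ = (1 + ε) * (n : ℝ) ^ 2 := by ring

theorem asym_lower {ε : ℝ} (hε : 0 < ε) : ∃ k₀ : ℕ, ∀ k ≥ k₀, ∃ n₀ : ℕ, ∀ n ≥ n₀, ∀ l ≥ 2,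
    (1 / 2 - ε) * (n : ℝ) ^ 2 ≤ (k : ℝ) * M k l n := by
  by_cases hbig : 1 / 2 ≤ ε
  · refine ⟨0, fun k _ => ⟨0, fun n _ l _ => ?_⟩⟩
    have h1 : (1 / 2 - ε) * (n : ℝ) ^ 2 ≤ 0 :=
      mul_nonpos_of_nonpos_of_nonneg (by linarith) (by positivity)
    exact h1.trans (by positivity)
  rw [not_le] at hbig
  obtain ⟨B₀, hB₀⟩ := exists_nat_ge (1 / ε)
  set B := B₀ + 1 with hBdef
  have hB1 : 1 ≤ B := by omega
  have hBR : 1 / ε ≤ (B : ℝ) := hB₀.trans (by rw [hBdef]; push_cast; linarith)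
  have hBpos : (0 : ℝ) < B := by exact_mod_cast hB1
  have hinv : 1 / (B : ℝ) ≤ ε := by
    rw [div_le_iff₀ hε] at hBR
    rw [div_le_iff₀ hBpos]; linarith
  obtain ⟨k₁, hk₁⟩ := exists_nat_ge ((B : ℝ) / ε)
  refine ⟨k₁ + 1, fun k hk => ?_⟩
  have hk1 : 1 ≤ k := by omega
  have hkR : (B : ℝ) ≤ ε * k := by
    rw [div_le_iff₀ hε] at hk₁
    have : (k₁ : ℝ) ≤ k := by exact_mod_cast (by omega : k₁ ≤ k)
    nlinarith
  have hkpos : (0 : ℝ) < k := by exact_mod_cast hk1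
  set c : ℝ := 2 * k + B with hc
  set R : ℝ := 4 * k + c with hR
  have hcpos : 0 < c := by positivity
  have hRpos : 0 < R := by positivity
  obtain ⟨n₁, hn₁⟩ := exists_nat_ge ((R + (k : ℝ) ^ 2 * B ^ 2) / ε ^ 2 + R)
  refine ⟨n₁ + 1, fun n hn l hl => ?_⟩
  have hnR : (n₁ : ℝ) + 1 ≤ n := by exact_mod_cast hn
  have hn2 : (R + (k : ℝ) ^ 2 * B ^ 2) / ε ^ 2 + R ≤ n := hn₁.trans (by linarith)
  have hfrac0 : 0 ≤ (R + (k : ℝ) ^ 2 * B ^ 2) / ε ^ 2 := by positivity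
  have hn1 : (1 : ℝ) ≤ n := by
    have : (0 : ℝ) ≤ n₁ := Nat.cast_nonneg _
    linarith
  have hnR2 : R ≤ n := by linarith
  have hnε : R + (k : ℝ) ^ 2 * B ^ 2 ≤ ε ^ 2 * n := by
    have h5 : (R + (k : ℝ) ^ 2 * B ^ 2) / ε ^ 2 ≤ n := by linarith
    rw [div_le_iff₀ (by positivity)] at h5
    linarith
  -- choose N
  have h2k : 4 * k ≤ 2 * n := by
    have : (4 * k : ℝ) ≤ 2 * n := by
      have : (4 * k : ℝ) ≤ R := by rw [hR]; linarith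
      linarith
    exact_mod_cast this
  set N := (2 * n - 4 * k) / (2 * k + B) with hN
  have hNle : N * (2 * k + B) ≤ 2 * n - 4 * k := Nat.div_mul_le_self _ _
  have hlow := M_lower k l B N n hk1 hl hB1 (by omega)
  have hNlt : 2 * n - 4 * k < (2 * k + B) * (N + 1) := Nat.lt_mul_div_succ _ (by omega)
  have hNR : 2 * (n : ℝ) - R ≤ c * N := by
    have h1 : 2 * n < (2 * k + B) * (N + 1) + 4 * k := by omega
    have h2 : 2 * (n : ℝ) < (2 * k + B) * (N + 1) + 4 * k := by exact_mod_cast h1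
    rw [hR, hc]
    nlinarith
  have hlowR : (k : ℝ) * ((N : ℝ) + 1 + turan N B) ≤ M k l n := by exact_mod_cast hlow
  have ht := turan_lower N B hB1
  have hN0 : (0 : ℝ) ≤ N := Nat.cast_nonneg _
  have h10 : (k : ℝ) * ((1 - 1 / (B : ℝ)) * (N : ℝ) ^ 2 / 2 - (B : ℝ) ^ 2 / 2) ≤ M k l n := by
    refine le_trans (mul_le_mul_of_nonneg_left ?_ hkpos.le) hlowR
    linarith
  -- (c N)^2 ≥ 4 n^2 - 4 n R
  have h11 : 4 * (n : ℝ) ^ 2 - 4 * n * R ≤ (c * N) ^ 2 := by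
    have h0 : 0 ≤ 2 * (n : ℝ) - R := by linarith
    have := pow_le_pow_left₀ h0 hNR 2
    nlinarith
  -- 4 k^2 ≥ (1 - ε) c^2
  have h12 : (1 - ε) * c ^ 2 ≤ 4 * (k : ℝ) ^ 2 := by
    have hcle : c ≤ (2 + ε) * k := by rw [hc]; linarith
    have h0 : c ^ 2 ≤ ((2 + ε) * k) ^ 2 := pow_le_pow_left₀ hcpos.le hcle 2
    have h1 : (1 - ε) * c ^ 2 ≤ (1 - ε) * ((2 + ε) * k) ^ 2 :=
      mul_le_mul_of_nonneg_left h0 (by linarith)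
    have h2 : (1 - ε) * ((2 + ε) * (k : ℝ)) ^ 2 = 4 * (k : ℝ) ^ 2 - (3 * ε ^ 2 + ε ^ 3) * (k : ℝ) ^ 2 := by
      ring
    have h3 : 0 ≤ (3 * ε ^ 2 + ε ^ 3) * (k : ℝ) ^ 2 := by positivity
    linarith
  have h13 : (1 - ε) * (4 * (n : ℝ) ^ 2 - 4 * n * R) ≤ 4 * ((k : ℝ) ^ 2 * (N : ℝ) ^ 2) := by
    calc (1 - ε) * (4 * (n : ℝ) ^ 2 - 4 * n * R) ≤ (1 - ε) * (c * N) ^ 2 :=
          mul_le_mul_of_nonneg_left h11 (by linarith)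
      _ = ((1 - ε) * c ^ 2) * (N : ℝ) ^ 2 := by ring
      _ ≤ (4 * (k : ℝ) ^ 2) * (N : ℝ) ^ 2 := mul_le_mul_of_nonneg_right h12 (by positivity)
      _ = _ := by ring
  have h14 : (k : ℝ) * ((k : ℝ) * ((1 - 1 / (B : ℝ)) * (N : ℝ) ^ 2 / 2 - (B : ℝ) ^ 2 / 2)) ≤
      (k : ℝ) * M k l n := mul_le_mul_of_nonneg_left h10 hkpos.le
  have h15 : (1 - ε) * ((k : ℝ) ^ 2 * (N : ℝ) ^ 2) / 2 - (k : ℝ) ^ 2 * (B : ℝ) ^ 2 / 2 ≤
      (k : ℝ) * ((k : ℝ) * ((1 - 1 / (B : ℝ)) * (N : ℝ) ^ 2 / 2 - (B : ℝ) ^ 2 / 2)) := by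
    have e : (k : ℝ) * ((k : ℝ) * ((1 - 1 / (B : ℝ)) * (N : ℝ) ^ 2 / 2 - (B : ℝ) ^ 2 / 2)) =
      (1 - 1 / (B : ℝ)) * ((k : ℝ) ^ 2 * (N : ℝ) ^ 2) / 2 - (k : ℝ) ^ 2 * (B : ℝ) ^ 2 / 2 := by ring
    rw [e]
    have : (1 - ε) * ((k : ℝ) ^ 2 * (N : ℝ) ^ 2) ≤ (1 - 1 / (B : ℝ)) * ((k : ℝ) ^ 2 * (N : ℝ) ^ 2) :=
      mul_le_mul_of_nonneg_right (by linarith) (by positivity)
    linarith
  have h16 : (1 - ε) * ((1 - ε) * ((n : ℝ) ^ 2 - n * R)) / 2 - (k : ℝ) ^ 2 * (B : ℝ) ^ 2 / 2 ≤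
      (k : ℝ) * M k l n := by
    have h17 : (1 - ε) * ((n : ℝ) ^ 2 - n * R) ≤ (k : ℝ) ^ 2 * (N : ℝ) ^ 2 := by linarith
    have h18 : (1 - ε) * ((1 - ε) * ((n : ℝ) ^ 2 - n * R)) ≤ (1 - ε) * ((k : ℝ) ^ 2 * (N : ℝ) ^ 2) :=
      mul_le_mul_of_nonneg_left h17 (by linarith)
    linarith
  -- final
  have h19 : (R + (k : ℝ) ^ 2 * B ^ 2) * n ≤ ε ^ 2 * n * n :=
    mul_le_mul_of_nonneg_right hnε (by linarith)
  have h20 : (k : ℝ) ^ 2 * (B : ℝ) ^ 2 ≤ (k : ℝ) ^ 2 * (B : ℝ) ^ 2 * n := by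
    nlinarith [show (0 : ℝ) ≤ (k : ℝ) ^ 2 * (B : ℝ) ^ 2 by positivity]
  have h21 : (1 - ε) * ((1 - ε) * (n * R)) ≤ n * R := by
    have hnR0 : 0 ≤ (n : ℝ) * R := by positivity
    have a1 : (1 - ε) * ((n : ℝ) * R) ≤ 1 * ((n : ℝ) * R) :=
      mul_le_mul_of_nonneg_right (by linarith) hnR0
    have a2 : (1 - ε) * ((1 - ε) * ((n : ℝ) * R)) ≤ (1 - ε) * (1 * ((n : ℝ) * R)) :=
      mul_le_mul_of_nonneg_left a1 (by linarith)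
    linarith
  have h22 : (1 - ε) * ((1 - ε) * ((n : ℝ) ^ 2 - n * R)) =
      (n : ℝ) ^ 2 - 2 * ε * n ^ 2 + ε ^ 2 * n ^ 2 - (1 - ε) * ((1 - ε) * (n * R)) := by ring
  have h23 : ε ^ 2 * n * n = ε ^ 2 * (n : ℝ) ^ 2 := by ring
  rw [h22] at h16
  rw [h23] at h19
  linarith

end Pool.Agent.U104.KAb
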