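import Pool.Agent.U104.KAb.Exact

set_option autoImplicit false
set_option linter.unusedSectionVars false

namespace Pool.Agent.U104.KAb

open List Classical

variable {l : ℕ}

/-- sum of the letters of a word over `{0, …, l - 1}` -/
def lsum (v : List (Fin l)) : ℕ := (v.map Fin.val).sum

theorem lsum_eq (v : List (Fin l)) : lsum v = ∑ c : Fin l, c.val * occ v [c] := by
  induction v with
  | nil => simp [lsum, occ_nil]
  | cons a v ih =>
    have h1 : ∀ c : Fin l, c.val * occ (a :: v) [c] = c.val * occ v [c] + (if c = a then c.val else 0) := by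
      intro c
      rw [occ_cons, mul_add]
      congr 1
      by_cases h : c = a
      · subst h; simp
      · simp [h]
    simp only [h1, Finset.sum_add_distrib, ← ih]
    simp [lsum, add_comm]

theorem lsum_of_equiv {u v : List (Fin l)} (h : KEquiv 1 u v) : lsum u = lsum v := by
  rw [lsum_eq, lsum_eq]
  exact Finset.sum_congr rfl fun c _ => by rw [h [c] (by simp)]

/-- length and letter sum of a class of `1`-abelian equivalence -/
noncomputable def inv (x : Quotient (kSetoid (Fin l) 1)) : ℕ × ℕ :=
  Quotient.lift (fun v : List (Fin l) => (v.length, lsum v))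
    (fun u v h => by
      have h' : KEquiv 1 u v := h
      exact Prod.ext h'.length_eq (lsum_of_equiv h')) x

theorem inv_mk (v : List (Fin l)) : inv (Quotient.mk (kSetoid (Fin l) 1) v) = (v.length, lsum v) :=
  rfl

theorem lsum_step {w : List (Fin l)} {i m : ℕ} (h : i + (m + 1) ≤ w.length) :
    (w[i]'(by omega)).val + lsum (win w (i + 1) m) = lsum (win w i m) + (w[i + m]'(by omega)).val := by
  have h1 : win w i (m + 1) = w[i]'(by omega) :: win w (i + 1) m := by
    unfold win
    rw [drop_eq_getElem_cons (by omega : i < w.length), take_succ_cons]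
  have h2 : win w i (m + 1) = win w i m ++ [w[i + m]'(by omega)] := by
    unfold win
    rw [take_add_one, getElem?_drop, getElem?_eq_getElem (by omega : i + m < w.length)]
    rfl
  have e1 : lsum (win w i (m + 1)) = (w[i]'(by omega)).val + lsum (win w (i + 1) m) := by
    rw [h1]; simp [lsum]
  have e2 : lsum (win w i (m + 1)) = lsum (win w i m) + (w[i + m]'(by omega)).val := by
    rw [h2]; simp [lsum]
  omega

theorem infix_finite (w : List (Fin l)) : {v : List (Fin l) | v <:+: w ∧ KPal 1 v}.Finite := by
  refine (w.sublists.toFinset.finite_toSet).subset ?_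
  intro v hv
  rw [Finset.mem_coe, List.mem_toFinset, List.mem_sublists]
  exact hv.1.sublist

/-- length and letter sum of the factors of a monotone word -/
theorem exists_pairs {w : List (Fin l)}
    (hw : ∀ (i j : ℕ) (hij : i ≤ j) (hj : j < w.length), w[i]'(by omega) ≤ w[j]) :
    ∃ F : Finset (ℕ × ℕ), F.card = w.length + 1 + (dpairs w).card ∧
      ∀ p ∈ F, ∃ v : List (Fin l), v <:+: w ∧ (v.length, lsum v) = p := by
  set n := w.length with hn
  -- the family of invariants
  let F' : Finset (Σ _ : ℕ, ℕ) := (Finset.range n).sigma
    (fun y => (Finset.range (y + 1)).image (fun i => lsum (win w i (n - y))))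
  have hF' : F'.card = n + (dpairs w).card := by
    rw [Finset.card_sigma, card_dpairs]
    have : ∀ y ∈ Finset.range n, ((Finset.range (y + 1)).image (fun i => lsum (win w i (n - y)))).card
        = 1 + ((Finset.range y).filter (fun i => w[i]? ≠ w[i + (w.length - y)]?)).card := by
      intro y hy
      rw [Finset.mem_range] at hy
      have hstep : ∀ i, i < y → lsum (win w i (n - y)) ≤ lsum (win w (i + 1) (n - y)) ∧
          (lsum (win w i (n - y)) ≠ lsum (win w (i + 1) (n - y)) ↔ w[i]? ≠ w[i + (w.length - y)]?) := by
        intro i hi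
        have hs := lsum_step (w := w) (i := i) (m := n - y) (by omega)
        have hle := hw i (i + (n - y)) (by omega) (by omega)
        have hle' : (w[i]'(by omega)).val ≤ (w[i + (n - y)]'(by omega)).val := hle
        constructor
        · omega
        · rw [not_iff_not, getElem?_eq_getElem (by omega : i < w.length),
            getElem?_eq_getElem (by omega : i + (w.length - y) < w.length), Option.some_inj]
          constructor
          · intro e
            apply Fin.ext
            have : (w[i]'(by omega)).val = (w[i + (n - y)]'(by omega)).val := by omega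
            exact this
          · intro e
            have : (w[i]'(by omega)).val = (w[i + (n - y)]'(by omega)).val := congrArg Fin.val e
            omega
      rw [card_image_mono _ y (fun i hi => (hstep i hi).1)]
      congr 2
      apply Finset.filter_congr
      intro i hi
      rw [Finset.mem_range] at hi
      exact (hstep i hi).2
    rw [Finset.sum_congr rfl this, Finset.sum_add_distrib]
    simp [hn]
  let F : Finset (ℕ × ℕ) := insert (0, 0) (F'.image (fun q => (n - q.1, q.2)))
  have hF : F.card = n + 1 + (dpairs w).card := by
    have h1 : (F'.image (fun q => (n - q.1, q.2))).card = F'.card := by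
      apply Finset.card_image_of_injOn
      intro p hp q hq e
      rw [Finset.mem_coe, Finset.mem_sigma, Finset.mem_range] at hp hq
      obtain ⟨a, b⟩ := p
      obtain ⟨c, d⟩ := q
      simp only [Prod.mk.injEq] at e hp hq
      have : a = c := by omega
      subst this
      rw [e.2]
    have h2 : (0, 0) ∉ F'.image (fun q => (n - q.1, q.2)) := by
      intro h
      rw [Finset.mem_image] at h
      obtain ⟨q, hq, e⟩ := h
      rw [Finset.mem_sigma, Finset.mem_range] at hq
      have := congrArg Prod.fst e
      simp only at this
      omega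
    show (insert (0, 0) (F'.image (fun q => (n - q.1, q.2)))).card = _
    rw [Finset.card_insert_of_notMem h2, h1, hF']
    omega
  refine ⟨F, hF, ?_⟩
  intro p hp
  rw [Finset.mem_insert] at hp
  rcases hp with rfl | hp
  · exact ⟨[], nil_infix, rfl⟩
  · rw [Finset.mem_image] at hp
    obtain ⟨⟨y, s⟩, hq, rfl⟩ := hp
    rw [Finset.mem_sigma, Finset.mem_range, Finset.mem_image] at hq
    obtain ⟨hy, i, hi, hs⟩ := hq
    simp only at hy hi hs
    rw [Finset.mem_range] at hi
    refine ⟨win w i (n - y), win_infix _ _ _, ?_⟩
    rw [win_length (by omega), hs]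

theorem le_pal_one {w : List (Fin l)}
    (hw : ∀ (i j : ℕ) (hij : i ≤ j) (hj : j < w.length), w[i]'(by omega) ≤ w[j]) :
    w.length + 1 + (dpairs w).card ≤ Pal 1 w := by
  obtain ⟨F, hF, hmem⟩ := exists_pairs hw
  have hsub : (F : Set (ℕ × ℕ)) ⊆ inv ''
      ((fun v => Quotient.mk (kSetoid (Fin l) 1) v) '' {v : List (Fin l) | v <:+: w ∧ KPal 1 v}) := by
    intro p hp
    obtain ⟨v, hv, e⟩ := hmem p hp
    exact ⟨_, ⟨v, ⟨hv, kpal_one _⟩, rfl⟩, by rw [inv_mk, e]⟩
  unfold Pal
  rw [← hF, ← Set.ncard_coe_finset]
  have hfin := (infix_finite w).image (fun v => Quotient.mk (kSetoid (Fin l) 1) v)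
  exact (Set.ncard_le_ncard hsub (hfin.image _)).trans (Set.ncard_image_le hfin)

end Pool.Agent.U104.KAb
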