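import Pool.Agent.U104.KAb.Family
import Pool.Agent.U104.KAb.Lower
import Pool.Agent.U104.KAb.CountPairs

set_option autoImplicit false
set_option linter.unusedSectionVars false

namespace Pool.Agent.U104.KAb

open List Classical

section
variable {α : Type*} [DecidableEq α]

theorem infix_finite' (k : ℕ) (w : List α) : {v : List α | v <:+: w ∧ KPal k v}.Finite := by
  refine (w.sublists.toFinset.finite_toSet).subset ?_
  intro v hv
  rw [Finset.mem_coe, List.mem_toFinset, List.mem_sublists]
  exact hv.1.sublist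

theorem pal_mono (k : ℕ) {w w' : List α} (h : w <:+: w') : Pal k w ≤ Pal k w' := by
  unfold Pal
  apply Set.ncard_le_ncard _ ((infix_finite' k w').image _)
  apply Set.image_mono
  intro v hv
  exact ⟨hv.1.trans h, hv.2⟩

end

theorem sum_mod_le (B : ℕ) (hB : 0 < B) (N : ℕ) :
    2 * ∑ i ∈ Finset.range N, i % B ≤ N * (B - 1) := by
  induction N using Nat.strong_induction_on with
  | _ N ih =>
    by_cases hN : N ≤ B
    · have : ∀ M, M ≤ B → 2 * ∑ i ∈ Finset.range M, i % B ≤ M * (M - 1) := by
        intro M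
        induction M with
        | zero => simp
        | succ M ihM =>
          intro hM
          rw [Finset.sum_range_succ, Nat.mod_eq_of_lt (by omega : M < B)]
          have h1 := ihM (by omega)
          rcases M with _ | M
          · simp
          · simp only [Nat.add_sub_cancel] at h1 ⊢
            nlinarith
      refine (this N hN).trans (Nat.mul_le_mul_left _ (by omega))
    · obtain ⟨M, rfl⟩ : ∃ M, N = M + B := ⟨N - B, by omega⟩
      have h1 := ih M (by omega)
      rw [add_comm M B, Finset.sum_range_add]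
      have h2 : ∑ x ∈ Finset.range M, (B + x) % B = ∑ x ∈ Finset.range M, x % B :=
        Finset.sum_congr rfl fun x _ => by rw [Nat.add_mod_left]
      rw [h2]
      have h3 : 2 * ∑ i ∈ Finset.range B, i % B = B * (B - 1) := by
        have : ∑ i ∈ Finset.range B, i % B = ∑ i ∈ Finset.range B, i :=
          Finset.sum_congr rfl fun x hx => Nat.mod_eq_of_lt (Finset.mem_range.1 hx)
        rw [this, mul_comm, Finset.sum_range_id_mul_two]
      rw [add_mul]
      omega

theorem sum_bal (B : ℕ) (hB : 0 < B) (N : ℕ) :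
    2 * ((bal B hB N).map Fin.val).sum ≤ N * (B - 1) := by
  have : ((bal B hB N).map Fin.val).sum = ∑ i ∈ Finset.range N, i % B := by
    unfold bal
    rw [List.map_ofFn, List.sum_ofFn]
    have h := Equiv.sum_comp (Tuple.sort (fun j : Fin N => (⟨j.1 % B, Nat.mod_lt _ hB⟩ : Fin B)))
      (fun j : Fin N => j.1 % B)
    rw [Finset.sum_range (fun i => i % B), ← h]
    rfl
  rw [this]
  exact sum_mod_le B hB N

variable {α : Type*} [DecidableEq α] [Fintype α]

/-- **Lower bound.** -/
theorem lower_family (a b : α) (hab : a ≠ b) (K B N : ℕ) (hB : 0 < B) :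
    ∃ w : List α, 2 * w.length ≤ 4 * K + 2 + N * (2 * K + B + 1) ∧
      (K + 1) * (N + 1 + turan N B) ≤ Pal (K + 1) w := by
  obtain ⟨F, hF, hmem⟩ := exists_pairs (w := bal B hB N) (fun i j hij hj => bal_mono B hB N hij hj)
  rw [bal_length, card_dpairs_bal] at hF
  choose! v hv using hmem
  set L := (bal B hB N).map Fin.val with hL
  have hLlen : L.length = N := by rw [hL, length_map, bal_length]
  refine ⟨gw a b K K L K, ?_, ?_⟩
  · rw [length_gw, hLlen]
    have := sum_bal B hB N
    rw [← hL] at this
    obtain ⟨B', rfl⟩ : ∃ B', B = B' + 1 := ⟨B - 1, by omega⟩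
    rw [Nat.add_sub_cancel] at this
    nlinarith
  · have hinj : Set.InjOn (fun q : (ℕ × ℕ) × ℕ =>
        (Quotient.mk (kSetoid α (K + 1)) (gw a b K q.2 ((v q.1).map Fin.val) q.2)))
        ((F ×ˢ Finset.range (K + 1) : Finset ((ℕ × ℕ) × ℕ)) : Set ((ℕ × ℕ) × ℕ)) := by
      intro p hp q hq e
      rw [Finset.mem_coe, Finset.mem_product, Finset.mem_range] at hp hq
      have h : KEquiv (K + 1) (gw a b K p.2 ((v p.1).map Fin.val) p.2)
          (gw a b K q.2 ((v q.1).map Fin.val) q.2) := Quotient.exact e
      obtain ⟨h1, h2, h3⟩ := gw_inj hab (by omega) (by omega) h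
      rw [length_map, length_map] at h2
      have e1 := (hv p.1 hp.1).2
      have e2 := (hv q.1 hq.1).2
      refine Prod.ext ?_ h1
      rw [← e1, ← e2, h2]
      exact Prod.ext rfl h3
    have hcard : (F ×ˢ Finset.range (K + 1)).card = (K + 1) * (N + 1 + turan N B) := by
      rw [Finset.card_product, hF, Finset.card_range, mul_comm]
    rw [← hcard, ← Finset.card_image_of_injOn hinj, ← Set.ncard_coe_finset]
    unfold Pal
    apply Set.ncard_le_ncard _ ((infix_finite' _ _).image _)
    intro x hx
    rw [Finset.mem_coe, Finset.mem_image] at hx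
    obtain ⟨q, hq, rfl⟩ := hx
    rw [Finset.mem_product, Finset.mem_range] at hq
    refine ⟨_, ⟨gw_infix (by omega) ?_, kpal_gw _ _⟩, rfl⟩
    rw [hL]
    exact (hv q.1 hq.1).1.map Fin.val

theorem lower_all (a b : α) (hab : a ≠ b) (K B N n : ℕ) (hB : 0 < B)
    (hn : 4 * K + 2 + N * (2 * K + B + 1) ≤ 2 * n) :
    ∃ w : List α, w.length = n ∧ (K + 1) * (N + 1 + turan N B) ≤ Pal (K + 1) w := by
  obtain ⟨w, h1, h2⟩ := lower_family a b hab K B N hB
  refine ⟨w ++ replicate (n - w.length) a, by simp; omega, h2.trans (pal_mono _ ?_)⟩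
  exact (prefix_append _ _).isInfix

end Pool.Agent.U104.KAb
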