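import Pool.Agent.U104.KAb.Windows

set_option autoImplicit false
set_option linter.unusedSectionVars false

namespace Pool.Agent.U104.KAb

section
variable {β : Type*}

/-- a form of the theorem of Fine and Wilf -/
theorem fine_wilf (f : ℕ → β) (N : ℕ) : ∀ p q L : ℕ, p + q ≤ N → 0 < p → 0 < q → p + q ≤ L →
    (∀ x, x + p < L → f x = f (x + p)) → (∀ x, x + q < L → f x = f (x + q)) →
    ∀ x, x + Nat.gcd p q < L → f x = f (x + Nat.gcd p q) := by
  induction N with
  | zero => intro p q L h hp; omega
  | succ N ih =>
    intro p q L hN hp hq hL h1 h2 x hx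
    rcases lt_trichotomy p q with hlt | heq | hgt
    · have hg : Nat.gcd p (q - p) = Nat.gcd p q := Nat.gcd_sub_self_right hlt.le
      have hgle : Nat.gcd p q ≤ q - p := by
        rw [← hg]; exact Nat.gcd_le_right _ (by omega)
      have key := ih p (q - p) (L - p) (by omega) hp (by omega) (by omega)
        (fun y hy => h1 y (by omega))
        (fun y hy => by
          rw [h2 y (by omega), h1 (y + (q - p)) (by omega)]
          congr 1; omega)
      rw [hg] at key
      by_cases hx' : x + Nat.gcd p q < L - p
      · exact key x hx'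
      · have e1 := h1 (x - p) (by omega)
        have e2 := h1 (x + Nat.gcd p q - p) (by omega)
        have e3 := key (x - p) (by omega)
        have a1 : x - p + p = x := by omega
        have a2 : x + Nat.gcd p q - p + p = x + Nat.gcd p q := by omega
        have a3 : x - p + Nat.gcd p q = x + Nat.gcd p q - p := by omega
        rw [a1] at e1
        rw [a2] at e2
        rw [a3] at e3
        rw [← e1, e3, e2]
    · subst heq
      rw [Nat.gcd_self] at hx ⊢
      exact h1 x hx
    · have hg : Nat.gcd (p - q) q = Nat.gcd p q := Nat.gcd_sub_self_left hgt.le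
      have hgle : Nat.gcd p q ≤ p - q := by
        rw [← hg]; exact Nat.gcd_le_left _ (by omega)
      have key := ih (p - q) q (L - q) (by omega) (by omega) hq (by omega)
        (fun y hy => by
          rw [h1 y (by omega), h2 (y + (p - q)) (by omega)]
          congr 1; omega)
        (fun y hy => h2 y (by omega))
      rw [hg] at key
      by_cases hx' : x + Nat.gcd p q < L - q
      · exact key x hx'
      · have e1 := h2 (x - q) (by omega)
        have e2 := h2 (x + Nat.gcd p q - q) (by omega)
        have e3 := key (x - q) (by omega)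
        have a1 : x - q + q = x := by omega
        have a2 : x + Nat.gcd p q - q + q = x + Nat.gcd p q := by omega
        have a3 : x - q + Nat.gcd p q = x + Nat.gcd p q - q := by omega
        rw [a1] at e1
        rw [a2] at e2
        rw [a3] at e3
        rw [← e1, e3, e2]

theorem per_mod (G : ℕ → β) {g K : ℕ} (hg : 0 < g) (h : ∀ y, y + g < K → G y = G (y + g)) :
    ∀ y, y < K → G y = G (y % g) := by
  intro y
  induction y using Nat.strong_induction_on with
  | _ y ih =>
    intro hy
    by_cases hyg : y < g
    · rw [Nat.mod_eq_of_lt hyg]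
    · have e := h (y - g) (by omega)
      have a : y - g + g = y := by omega
      rw [a] at e
      rw [← e, ih (y - g) (by omega) (by omega)]
      congr 1
      conv_rhs => rw [← a, Nat.add_mod_right]

/-- **Lemma B**, for functions. -/
theorem three_prefixes (F : ℕ → β) {d d' K : ℕ} (hd : 0 < d) (hd' : 0 < d')
    (hK : 2 * (d + d') ≤ K) (h1 : ∀ y, y + d < K → F y = F (y + 2 * d))
    (h2 : ∀ y, y + d' < K → F (d + y) = F (d + y + 2 * d')) :
    (∀ s, s < K → F s = F (d + s)) ∨ (∀ s, s < K → F (d + s) = F (d + d' + s)) ∨
      (∀ s, s < K → F s = F (d + d' + s)) := by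
  set g := Nat.gcd (2 * d) (2 * d') with hgdef
  have hg : 0 < g := Nat.gcd_pos_of_pos_left _ (by omega)
  have gd : g ∣ 2 * d := Nat.gcd_dvd_left _ _
  have gd' : g ∣ 2 * d' := Nat.gcd_dvd_right _ _
  have hG : ∀ y, y + g < K → F (d + y) = F (d + (y + g)) :=
    fine_wilf (fun y => F (d + y)) (2 * d + 2 * d') (2 * d) (2 * d') K le_rfl (by omega) (by omega)
      (by omega)
      (fun y hy => by
        show F (d + y) = F (d + (y + 2 * d))
        rw [h1 (d + y) (by omega), add_assoc])
      (fun y hy => by
        show F (d + y) = F (d + (y + 2 * d'))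
        rw [h2 y (by omega), add_assoc])
  have hmod := per_mod (fun y => F (d + y)) hg hG
  have hrep : ∀ y, y < d + d' + K → ∃ z, z < K ∧ d + z ≡ y [MOD g] ∧ F y = F (d + z) := by
    intro y hy
    rcases lt_or_ge y d with hlt | hge
    · refine ⟨y + d, by omega, ?_, ?_⟩
      · have : d + (y + d) = y + 2 * d := by ring
        rw [this]
        exact (Nat.modEq_iff_dvd' (by omega)).2 (by simpa using gd) |>.symm
      · rw [h1 y (by omega)]; congr 1; ring
    · rcases lt_or_ge y (d + K) with hlt2 | hge2
      · refine ⟨y - d, by omega, ?_, ?_⟩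
        · have : d + (y - d) = y := by omega
          rw [this]
        · congr 1; omega
      · refine ⟨y - d - 2 * d', by omega, ?_, ?_⟩
        · refine (Nat.modEq_iff_dvd' (by omega)).2 ?_
          have : y - (d + (y - d - 2 * d')) = 2 * d' := by omega
          rw [this]; exact gd'
        · rw [h2 (y - d - 2 * d') (by omega)]
          congr 1; omega
  have hall : ∀ y y', y < d + d' + K → y' < d + d' + K → y ≡ y' [MOD g] → F y = F y' := by
    intro y y' hy hy' hyy
    obtain ⟨z, hz, hz1, hz2⟩ := hrep y hy
    obtain ⟨z', hz', hz1', hz2'⟩ := hrep y' hy'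
    have hzz : z ≡ z' [MOD g] := Nat.ModEq.add_left_cancel' d (hz1.trans (hyy.trans hz1'.symm))
    have e1 := hmod z hz
    have e2 := hmod z' hz'
    rw [hz2, hz2', e1, e2]
    have : z % g = z' % g := hzz
    rw [this]
  have hcase : g ∣ d ∨ g ∣ d' ∨ g ∣ d + d' := by
    have e : g = 2 * Nat.gcd d d' := by rw [hgdef, Nat.gcd_mul_left]
    obtain ⟨a, ha⟩ := Nat.gcd_dvd_left d d'
    obtain ⟨b, hb⟩ := Nat.gcd_dvd_right d d'
    rw [e]
    rcases Nat.even_or_odd' a with ⟨a', rfl | rfl⟩
    · left; exact ⟨a', by linarith [ha, show Nat.gcd d d' * (2 * a') = 2 * Nat.gcd d d' * a' by ring]⟩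
    · rcases Nat.even_or_odd' b with ⟨b', rfl | rfl⟩
      · right; left
        exact ⟨b', by linarith [hb, show Nat.gcd d d' * (2 * b') = 2 * Nat.gcd d d' * b' by ring]⟩
      · right; right
        refine ⟨a' + b' + 1, ?_⟩
        have : 2 * Nat.gcd d d' * (a' + b' + 1) =
          Nat.gcd d d' * (2 * a' + 1) + Nat.gcd d d' * (2 * b' + 1) := by ring
        rw [this, ← ha, ← hb]
  rcases hcase with hc | hc | hc
  · left
    intro s hs
    refine hall _ _ (by omega) (by omega) ?_
    have := (Nat.modEq_iff_dvd' (by omega : s ≤ d + s)).2 (by simpa using hc)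
    exact this
  · right; left
    intro s hs
    refine hall _ _ (by omega) (by omega) ?_
    refine (Nat.modEq_iff_dvd' (by omega : d + s ≤ d + d' + s)).2 ?_
    have : d + d' + s - (d + s) = d' := by omega
    rw [this]; exact hc
  · right; right
    intro s hs
    refine hall _ _ (by omega) (by omega) ?_
    refine (Nat.modEq_iff_dvd' (by omega : s ≤ d + d' + s)).2 ?_
    have : d + d' + s - s = d + d' := by omega
    rw [this]; exact hc

end

open List
variable {α : Type*} [DecidableEq α] [Fintype α]

/-- the palindromic windows at distance `d` produce the local period `2 d` -/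
theorem period_of_pair {w : List α} {i m d K : ℕ} (h : i + m + d ≤ w.length) (hm : K + 1 ≤ m)
    (h1 : KPal (K + 1) (win w i m)) (h2 : KPal (K + 1) (win w (i + d) m)) {y : ℕ}
    (hy : y + d < K) : w[i + y]? = w[i + (y + 2 * d)]? := by
  rw [h1.mirror (by omega) (by omega) (by omega : y < K)]
  have := h2.mirror (by omega) (by omega) (by omega : d + y < K)
  have e1 : i + d + (d + y) = i + (y + 2 * d) := by ring
  rw [e1] at this
  rw [this]
  congr 1; omega

/-- **Lemma B.** Among three `k`-palindromic windows of the same length `m ≥ k` whose starts lie in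
an interval of length at most `(k - 1) / 2`, two are equivalent. -/
theorem three_windows {w : List α} {a b c m K : ℕ} (hab : a < b) (hbc : b < c)
    (hc : c + m ≤ w.length) (hm : K + 1 ≤ m) (hK : 2 * (c - a) ≤ K)
    (h1 : KPal (K + 1) (win w a m)) (h2 : KPal (K + 1) (win w b m))
    (h3 : KPal (K + 1) (win w c m)) :
    KEquiv (K + 1) (win w a m) (win w b m) ∨ KEquiv (K + 1) (win w b m) (win w c m) ∨
      KEquiv (K + 1) (win w a m) (win w c m) := by
  obtain ⟨d, rfl⟩ : ∃ d, b = a + d := ⟨b - a, by omega⟩
  obtain ⟨d', rfl⟩ : ∃ d', c = a + d + d' := ⟨c - (a + d), by omega⟩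
  have p1 : ∀ y, y + d < K → w[a + y]? = w[a + (y + 2 * d)]? := fun y hy =>
    period_of_pair (by omega) hm h1 h2 hy
  have p2 : ∀ y, y + d' < K → w[a + (d + y)]? = w[a + (d + y + 2 * d')]? := by
    intro y hy
    have := period_of_pair (i := a + d) (d := d') (by omega) hm h2 h3 hy
    have e1 : a + (d + y) = a + d + y := by ring
    have e2 : a + (d + y + 2 * d') = a + d + (y + 2 * d') := by ring
    rw [e1, e2]; exact this
  rcases three_prefixes (fun y => w[a + y]?) (by omega) (by omega) (by omega) p1 p2 with H | H | H
  · left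
    refine equiv_of_prefix (by omega) hm (by omega) h1 h2 fun s hs => ?_
    have := H s hs
    rw [this]; congr 1; ring
  · right; left
    refine equiv_of_prefix (by omega) hm (by omega) h2 h3 fun s hs => ?_
    have := H s hs
    rw [show a + d + s = a + (d + s) by ring, this]; congr 1; ring
  · right; right
    have h3' : KPal (K + 1) (win w (a + (d + d')) m) := by rw [← add_assoc]; exact h3
    have := equiv_of_prefix (D := d + d') (by omega) hm (by omega) h1 h3' fun s hs => (by
      have := H s hs
      rw [this]; congr 1; ring)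
    rw [← add_assoc] at this
    exact this

end Pool.Agent.U104.KAb
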