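import Pool.Agent.U104.KAb.Basic

set_option autoImplicit false
set_option linter.unusedSectionVars false

namespace Pool.Agent.U104.KAb

open List

variable {α : Type*} [DecidableEq α]

/-- the factor of `w` of length `m` starting at position `i` -/
def win (w : List α) (i m : ℕ) : List α := (w.drop i).take m

theorem win_length {w : List α} {i m : ℕ} (h : i + m ≤ w.length) : (win w i m).length = m := by
  unfold win; rw [length_take, length_drop]; omega

theorem win_getElem? {w : List α} {i m s : ℕ} (h : s < m) : (win w i m)[s]? = w[i + s]? := by
  unfold win; rw [getElem?_take_of_lt h, getElem?_drop]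

theorem prefix_iff' {t u : List α} : t <+: u ↔ ∀ a, a < t.length → u[a]? = t[a]? := by
  rw [prefix_iff_getElem?]
  constructor
  · intro h a ha
    rw [h a ha, getElem?_eq_getElem ha]
  · intro h a ha
    rw [h a ha, getElem?_eq_getElem ha]

theorem prefix_drop_iff {t w : List α} {p : ℕ} :
    t <+: w.drop p ↔ ∀ a, a < t.length → w[p + a]? = t[a]? := by
  rw [prefix_iff']; simp only [getElem?_drop]

theorem win_prefix_iff {w t : List α} {i m : ℕ} (ht : t.length ≤ m) :
    t <+: win w i m ↔ t <+: w.drop i := by
  unfold win; rw [prefix_take_iff]; simp [ht]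

theorem win_suffix_iff {w t : List α} {i m : ℕ} (h : i + m ≤ w.length) (ht : t.length ≤ m) :
    t <:+ win w i m ↔ t <+: w.drop (i + m - t.length) := by
  have hl := win_length h
  have e : (win w i m).drop (m - t.length) = (w.drop (i + m - t.length)).take t.length := by
    unfold win
    rw [drop_take, drop_drop]
    congr 1
    · omega
    · congr 1; omega
  constructor
  · intro hs
    have := suffix_iff_eq_drop.1 hs
    rw [hl, e] at this
    exact prefix_iff_eq_take.2 this
  · intro hp
    have := prefix_iff_eq_take.1 hp
    rw [← e] at this
    rw [suffix_iff_eq_drop, hl]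
    exact this

/-- indicator of an occurrence of `t` at position `x` of `w` -/
def ind (w t : List α) (x : ℕ) : ℕ := if t <+: w.drop x then 1 else 0

theorem occ_step {w t : List α} {i m : ℕ} (h : i + (m + 1) ≤ w.length) (ht : t.length ≤ m + 1) :
    occ (win w (i + 1) m) t + ind w t i = occ (win w i m) t + ind w t (i + m + 1 - t.length) := by
  have h1 : win w i (m + 1) = w[i]'(by omega) :: win w (i + 1) m := by
    unfold win
    rw [drop_eq_getElem_cons (by omega : i < w.length), take_succ_cons]
  have h2 : win w i (m + 1) = win w i m ++ [w[i + m]'(by omega)] := by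
    unfold win
    rw [take_add_one, getElem?_drop, getElem?_eq_getElem (by omega : i + m < w.length)]
    rfl
  have e1 : occ (win w i (m + 1)) t = occ (win w (i + 1) m) t + ind w t i := by
    conv_lhs => rw [h1]
    rw [occ_cons, ← h1]
    unfold ind
    simp only [win_prefix_iff ht]
  have e2 : occ (win w i (m + 1)) t = occ (win w i m) t + ind w t (i + m + 1 - t.length) := by
    conv_lhs => rw [h2]
    rw [occ_concat, ← h2]
    unfold ind
    simp only [win_suffix_iff h ht]
    rfl
  omega

theorem occ_shift {w t : List α} {i m : ℕ} (ht : t.length ≤ m + 1) (D : ℕ)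
    (h : i + m + D ≤ w.length) :
    occ (win w (i + D) m) t + ∑ x ∈ Finset.range D, ind w t (i + x) =
      occ (win w i m) t + ∑ x ∈ Finset.range D, ind w t (i + x + m + 1 - t.length) := by
  induction D with
  | zero => simp
  | succ D ih =>
    have h1 := ih (by omega)
    have h2 := occ_step (w := w) (t := t) (i := i + D) (m := m) (by omega) ht
    rw [Finset.sum_range_succ, Finset.sum_range_succ]
    rw [← add_assoc i D 1]
    omega

theorem KPal.occ_reverse {k : ℕ} {v : List α} (h : KPal k v) {t : List α} (ht : t.length ≤ k) :
    occ v t = occ v t.reverse := by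
  rw [h t ht, Pool.Agent.U104.KAb.occ_reverse]

/-- the ends of a palindromic window are mirror images of each other -/
theorem KPal.mirror [Fintype α] {w : List α} {i m K : ℕ} (h : i + m ≤ w.length) (hm : K ≤ m)
    (hp : KPal (K + 1) (win w i m)) {s : ℕ} (hs : s < K) :
    w[i + s]? = w[i + m - 1 - s]? := by
  have hl := win_length h
  have h1 : (win w i m).take K <+: win w i m := take_prefix _ _
  have hK : ((win w i m).take K).length = K := by rw [length_take, hl]; omega
  have h2 := (hp.prefix_iff (by rw [hK])).1 h1
  rw [win_suffix_iff h (by rw [length_reverse, hK]; exact hm), prefix_drop_iff] at h2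
  have h3 := h2 (K - 1 - s) (by rw [length_reverse, hK]; omega)
  rw [length_reverse, hK] at h3
  have e1 : i + m - K + (K - 1 - s) = i + m - 1 - s := by omega
  rw [e1] at h3
  rw [h3, getElem?_reverse (by rw [hK]; omega), hK]
  have e2 : K - 1 - (K - 1 - s) = s := by omega
  rw [e2, getElem?_take_of_lt hs, win_getElem? (by omega)]

/-- **Lemma A.** Two palindromic windows of the same length `m ≥ k` at distance at most `k - 1`
with the same prefix of length `k - 1` are equivalent. -/
theorem equiv_of_prefix [Fintype α] {w : List α} {i m D K : ℕ} (h : i + m + D ≤ w.length)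
    (hm : K + 1 ≤ m) (hD : D ≤ K) (h1 : KPal (K + 1) (win w i m))
    (h2 : KPal (K + 1) (win w (i + D) m))
    (hpre : ∀ s, s < K → w[i + s]? = w[i + D + s]?) :
    KEquiv (K + 1) (win w i m) (win w (i + D) m) := by
  have hr : ∀ y, y < D + K → w[i + y]? = w[i + m + D - 1 - y]? := by
    intro y hy
    by_cases hyK : y < K
    · rw [hpre y hyK, h2.mirror (by omega) (by omega) hyK]
      congr 1; omega
    · have e : i + y = i + D + (y - D) := by omega
      rw [e, ← hpre (y - D) (by omega), h1.mirror (by omega) (by omega) (by omega : y - D < K)]
      congr 1; omega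
  have key : ∀ t : List α, t.length ≤ K + 1 →
      ∑ x ∈ Finset.range D, ind w t (i + x + m + 1 - t.length) =
        ∑ x ∈ Finset.range D, ind w t.reverse (i + x) := by
    intro t ht
    rw [← Finset.sum_range_reflect]
    apply Finset.sum_congr rfl
    intro x hx
    rw [Finset.mem_range] at hx
    unfold ind
    have : t <+: w.drop (i + (D - 1 - x) + m + 1 - t.length) ↔ t.reverse <+: w.drop (i + x) := by
      rw [prefix_drop_iff, prefix_drop_iff, length_reverse]
      constructor
      · intro H a ha
        rw [getElem?_reverse ha, ← H (t.length - 1 - a) (by omega)]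
        rw [add_assoc i x a, hr (x + a) (by omega)]
        congr 1; omega
      · intro H a ha
        have H1 := H (t.length - 1 - a) (by omega)
        rw [getElem?_reverse (by omega)] at H1
        have e : t.length - 1 - (t.length - 1 - a) = a := by omega
        rw [e] at H1
        rw [← H1, add_assoc i x, hr (x + (t.length - 1 - a)) (by omega)]
        congr 1; omega
    simp only [this]
  intro t ht
  have s1 := occ_shift (w := w) (t := t) (i := i) (m := m) (by omega) D h
  have s2 := occ_shift (w := w) (t := t.reverse) (i := i) (m := m) (by rw [length_reverse]; omega) D h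
  rw [key t ht] at s1
  rw [key t.reverse (by rw [length_reverse]; exact ht), reverse_reverse] at s2
  have p1 := h1.occ_reverse ht
  have p2 := h2.occ_reverse ht
  omega

end Pool.Agent.U104.KAb
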