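import Pool.Agent.U104.KAb.Count

set_option autoImplicit false
set_option linter.unusedSectionVars false

namespace Pool.Agent.U104.KAb

section
variable {β : Type*}

/-- two overlapping local periods give a common one -/
theorem zone (F : ℕ → β) {d d' D D' K : ℕ} (hD : 0 < D) (hD' : 0 < D') (hdD : d ≤ D)
    (hdD' : d' ≤ D') (hK : D + D' ≤ K) (h1 : ∀ y, y + D < d + K → F y = F (y + D))
    (h2 : ∀ y, y + D' < d' + K → F (d + y) = F (d + y + D')) :
    ∀ y y', y < d + d' + K → y' < d + d' + K → y ≡ y' [MOD Nat.gcd D D'] → F y = F y' := by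
  set g := Nat.gcd D D' with hgdef
  have hg : 0 < g := Nat.gcd_pos_of_pos_left _ (by omega)
  have gd : g ∣ D := Nat.gcd_dvd_left _ _
  have gd' : g ∣ D' := Nat.gcd_dvd_right _ _
  have hG : ∀ y, y + g < K → F (d + y) = F (d + (y + g)) :=
    fine_wilf (fun y => F (d + y)) (D + D') D D' K le_rfl (by omega) (by omega)
      (by omega)
      (fun y hy => by
        show F (d + y) = F (d + (y + D))
        rw [h1 (d + y) (by omega), add_assoc])
      (fun y hy => by
        show F (d + y) = F (d + (y + D'))
        rw [h2 y (by omega), add_assoc])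
  have hmod := per_mod (fun y => F (d + y)) hg hG
  have hrep : ∀ y, y < d + d' + K → ∃ z, z < K ∧ d + z ≡ y [MOD g] ∧ F y = F (d + z) := by
    intro y hy
    rcases lt_or_ge y d with hlt | hge
    · refine ⟨y + D - d, by omega, ?_, ?_⟩
      · have : d + (y + D - d) = y + D := by omega
        rw [this]
        exact (Nat.modEq_iff_dvd' (by omega)).2 (by simpa using gd) |>.symm
      · rw [h1 y (by omega)]; congr 1; omega
    · rcases lt_or_ge y (d + K) with hlt2 | hge2
      · refine ⟨y - d, by omega, ?_, ?_⟩
        · have : d + (y - d) = y := by omega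
          rw [this]
        · congr 1; omega
      · refine ⟨y - d - D', by omega, ?_, ?_⟩
        · refine (Nat.modEq_iff_dvd' (by omega)).2 ?_
          have : y - (d + (y - d - D')) = D' := by omega
          rw [this]; exact gd'
        · rw [h2 (y - d - D') (by omega)]
          congr 1; omega
  intro y y' hy hy' hyy
  obtain ⟨z, hz, hz1, hz2⟩ := hrep y hy
  obtain ⟨z', hz', hz1', hz2'⟩ := hrep y' hy'
  have hzz : z ≡ z' [MOD g] := Nat.ModEq.add_left_cancel' d (hz1.trans (hyy.trans hz1'.symm))
  have e1 := hmod z hz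
  have e2 := hmod z' hz'
  rw [hz2, hz2', e1, e2]
  have : z % g = z' % g := hzz
  rw [this]

end

open List
variable {α : Type*} [DecidableEq α] [Fintype α]

/-- the local period coming from two palindromic windows -/
theorem period_gen {w : List α} {i m i' m' K : ℕ} (h : i + m ≤ w.length) (h' : i' + m' ≤ w.length)
    (hm : K + 1 ≤ m) (hm' : K + 1 ≤ m') (hii : i ≤ i') (hc : 2 * i + m < 2 * i' + m')
    (hd : i' - i ≤ 2 * i' + m' - (2 * i + m))
    (h1 : KPal (K + 1) (win w i m)) (h2 : KPal (K + 1) (win w i' m')) {y : ℕ}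
    (hy : y + (2 * i' + m' - (2 * i + m)) < i' - i + K) :
    w[i + y]? = w[i + (y + (2 * i' + m' - (2 * i + m)))]? := by
  rw [h1.mirror (by omega) (by omega) (by omega : y < K)]
  have := h2.mirror (by omega) (by omega)
    (by omega : y + (2 * i' + m' - (2 * i + m)) - (i' - i) < K)
  have e1 : i' + (y + (2 * i' + m' - (2 * i + m)) - (i' - i)) =
    i + (y + (2 * i' + m' - (2 * i + m))) := by omega
  rw [e1] at this
  rw [this]
  congr 1; omega

/-- three palindromic windows with close centres produce a periodic zone -/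
theorem zone_windows {w : List α} {a ma b mb c mc K : ℕ} (ha : a + ma ≤ w.length)
    (hb : b + mb ≤ w.length) (hc : c + mc ≤ w.length) (hma : K + 1 ≤ ma) (hmb : K + 1 ≤ mb)
    (hmc : K + 1 ≤ mc) (hab : a ≤ b) (hbc : b ≤ c) (cab : 2 * a + ma < 2 * b + mb)
    (cbc : 2 * b + mb < 2 * c + mc) (dab : b - a ≤ 2 * b + mb - (2 * a + ma))
    (dbc : c - b ≤ 2 * c + mc - (2 * b + mb)) (hK : 2 * c + mc ≤ 2 * a + ma + K)
    (h1 : KPal (K + 1) (win w a ma)) (h2 : KPal (K + 1) (win w b mb))
    (h3 : KPal (K + 1) (win w c mc)) :
    ∀ y y', y < c - a + K → y' < c - a + K →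
      y ≡ y' [MOD Nat.gcd (2 * b + mb - (2 * a + ma)) (2 * c + mc - (2 * b + mb))] →
      w[a + y]? = w[a + y']? := by
  have key := zone (fun y => w[a + y]?) (d := b - a) (d' := c - b)
    (D := 2 * b + mb - (2 * a + ma)) (D' := 2 * c + mc - (2 * b + mb)) (K := K) (by omega)
    (by omega) dab dbc (by omega)
    (fun y hy => period_gen ha hb hma hmb hab cab dab h1 h2 hy)
    (fun y hy => by
      have := period_gen hb hc hmb hmc hbc cbc dbc h2 h3 hy
      show w[a + (b - a + y)]? = w[a + (b - a + y + (2 * c + mc - (2 * b + mb)))]?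
      have e1 : a + (b - a + y) = b + y := by omega
      have e2 : a + (b - a + y + (2 * c + mc - (2 * b + mb))) =
        b + (y + (2 * c + mc - (2 * b + mb))) := by omega
      rw [e1, e2]; exact this)
  intro y y' hy hy' hyy
  exact key y y' (by omega) (by omega) hyy

theorem odd_dvd {g x y : ℕ} (hx : g ∣ x) (hodd : x % 2 = 1) (hy : g ∣ 2 * y) : g ∣ y := by
  have hg : Nat.Coprime g 2 := by
    rw [Nat.coprime_two_right]
    rw [← Nat.not_even_iff_odd]
    intro he
    obtain ⟨c, hc⟩ := hx
    obtain ⟨e, hee⟩ := he
    rw [hee] at hc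
    have : x = 2 * (e * c) := by rw [hc]; ring
    omega
  exact hg.dvd_of_dvd_mul_left hy

/-- **Lemma C.** Two palindromic windows of the same length are equivalent if there is a
palindromic window whose length differs by one, all starts being close to each other. -/
theorem mixed_windows {w : List α} {a b c M M' K h : ℕ} (hab : a < b) (hM : M = M' + 1 ∨ M' = M + 1)
    (ha : a + M ≤ w.length) (hb : b + M ≤ w.length) (hc : c + M' ≤ w.length)
    (hm : K + 1 ≤ M) (hm' : K + 1 ≤ M') (hh : 2 * h + 1 ≤ K) (s1 : b ≤ a + h)
    (s2 : c ≤ a + h) (s3 : b ≤ c + h)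
    (h1 : KPal (K + 1) (win w a M)) (h2 : KPal (K + 1) (win w b M))
    (h3 : KPal (K + 1) (win w c M')) :
    KEquiv (K + 1) (win w a M) (win w b M) := by
  obtain ⟨d, rfl⟩ : ∃ d, b = a + d := ⟨b - a, by omega⟩
  refine equiv_of_prefix (by omega) hm (by omega) h1 h2 fun s hs => ?_
  rcases lt_trichotomy (2 * c + M') (2 * a + M) with hlt | heq | hgt
  · -- order c, a, b
    have z := zone_windows hc ha hb hm' hm hm (by omega) (by omega) hlt (by omega) (by omega)
      (by omega) (by omega) h3 h1 h2
    have hg : Nat.gcd (2 * a + M - (2 * c + M')) (2 * (a + d) + M - (2 * a + M)) ∣ d := by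
      refine odd_dvd (Nat.gcd_dvd_left _ _) (by omega) ?_
      have : 2 * (a + d) + M - (2 * a + M) = 2 * d := by omega
      conv_rhs => rw [← this]
      exact Nat.gcd_dvd_right _ _
    have := z (a - c + s) (a - c + s + d) (by omega) (by omega)
      ((Nat.modEq_iff_dvd' (by omega)).2 (by
        have : a - c + s + d - (a - c + s) = d := by omega
        rw [this]; exact hg))
    have e1 : c + (a - c + s) = a + s := by omega
    have e2 : c + (a - c + s + d) = a + d + s := by omega
    rw [e1, e2] at this
    exact this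
  · omega
  · rcases lt_trichotomy (2 * c + M') (2 * (a + d) + M) with hlt2 | heq2 | hgt2
    · -- order a, c, b
      have z := zone_windows ha hc hb hm hm' hm (by omega) (by omega) hgt hlt2 (by omega)
        (by omega) (by omega) h1 h3 h2
      have hg : Nat.gcd (2 * c + M' - (2 * a + M)) (2 * (a + d) + M - (2 * c + M')) ∣ d := by
        refine odd_dvd (Nat.gcd_dvd_left _ _) (by omega) ?_
        have : 2 * d = (2 * c + M' - (2 * a + M)) + (2 * (a + d) + M - (2 * c + M')) := by omega
        conv_rhs => rw [this]
        exact Dvd.dvd.add (Nat.gcd_dvd_left _ _) (Nat.gcd_dvd_right _ _)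
      have := z s (s + d) (by omega) (by omega)
        ((Nat.modEq_iff_dvd' (by omega)).2 (by
          have : s + d - s = d := by omega
          rw [this]; exact hg))
      have e2 : a + (s + d) = a + d + s := by omega
      rw [e2] at this
      exact this
    · omega
    · -- order a, b, c
      have z := zone_windows ha hb hc hm hm hm' (by omega) (by omega) (by omega) hgt2 (by omega)
        (by omega) (by omega) h1 h2 h3
      have hg : Nat.gcd (2 * (a + d) + M - (2 * a + M)) (2 * c + M' - (2 * (a + d) + M)) ∣ d := by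
        refine odd_dvd (Nat.gcd_dvd_right _ _) (by omega) ?_
        have : 2 * (a + d) + M - (2 * a + M) = 2 * d := by omega
        conv_rhs => rw [← this]
        exact Nat.gcd_dvd_left _ _
      have := z s (s + d) (by omega) (by omega)
        ((Nat.modEq_iff_dvd' (by omega)).2 (by
          have : s + d - s = d := by omega
          rw [this]; exact hg))
      have e2 : a + (s + d) = a + d + s := by omega
      rw [e2] at this
      exact this

end Pool.Agent.U104.KAb
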